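import Mathlib

set_option autoImplicit false

/-!
# HMS, Lemma 2 (few exceptions)

A trace and rank argument. `C` is a set of vectors of dimension `N` which can be separated from
every vector outside it by a nonnegative functional (for instance a closed convex cone).
-/

namespace Pool.HMS

open Finset Matrix

/-- A root of the characteristic polynomial has an eigenvector. -/
theorem exists_eigvec {N : ℕ} (M : Matrix (Fin N) (Fin N) ℂ) (μ : ℂ)
    (hμ : μ ∈ M.charpoly.roots) : ∃ v : Fin N → ℂ, v ≠ 0 ∧ M *ᵥ v = μ • v := by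
  classical
  have h1 : Polynomial.IsRoot M.charpoly μ := Polynomial.isRoot_of_mem_roots hμ
  have h2 : (Matrix.scalar (Fin N) μ - M).det = 0 := by
    have := h1.eq_zero
    rwa [Matrix.eval_charpoly] at this
  obtain ⟨v, hv, hv2⟩ := Matrix.exists_mulVec_eq_zero_iff.mpr h2
  refine ⟨v, hv, ?_⟩
  have h3 : (Matrix.scalar (Fin N) μ) *ᵥ v - M *ᵥ v = 0 := by
    rw [← Matrix.sub_mulVec]; exact hv2
  have h4 : (Matrix.scalar (Fin N) μ) *ᵥ v = μ • v := by
    ext i
    simp [Matrix.scalar_apply, Matrix.mulVec_diagonal]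
  rw [h4] at h3
  exact (sub_eq_zero.mp h3).symm

/-- Every eigenvalue of a product `X * B` is bounded by the row sums of `B * X`. -/
theorem norm_root_le {N r : ℕ} (B : Matrix (Fin r) (Fin N) ℝ) (X : Matrix (Fin N) (Fin r) ℝ)
    (R : ℝ) (hR : 0 ≤ R) (hnn : ∀ i j, 0 ≤ (B * X) i j) (hrow : ∀ i, ∑ j, (B * X) i j ≤ R)
    (μ : ℂ) (hμ : μ ∈ ((X * B).map (algebraMap ℝ ℂ)).charpoly.roots) : ‖μ‖ ≤ R := by
  classical
  by_cases h0 : μ = 0
  · simp [h0, hR]
  obtain ⟨v, hv, hv2⟩ := exists_eigvec _ μ hμ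
  set Bc := B.map (algebraMap ℝ ℂ) with hBc
  set Xc := X.map (algebraMap ℝ ℂ) with hXc
  have hXB : (X * B).map (algebraMap ℝ ℂ) = Xc * Bc := by
    rw [Matrix.map_mul]
  have hBX : (B * X).map (algebraMap ℝ ℂ) = Bc * Xc := by
    rw [Matrix.map_mul]
  set w := Bc *ᵥ v with hw
  have hw2 : (Bc * Xc) *ᵥ w = μ • w := by
    have : (Bc * Xc) *ᵥ (Bc *ᵥ v) = Bc *ᵥ ((Xc * Bc) *ᵥ v) := by
      simp [Matrix.mulVec_mulVec, Matrix.mul_assoc]
    rw [hw, this, ← hXB, hv2, Matrix.mulVec_smul]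
  have hw0 : w ≠ 0 := by
    intro hz
    have : (Xc * Bc) *ᵥ v = 0 := by
      rw [← Matrix.mulVec_mulVec, ← hw, hz, Matrix.mulVec_zero]
    rw [← hXB, hv2] at this
    rcases smul_eq_zero.mp this with h | h
    · exact h0 h
    · exact hv h
  -- maximal coordinate
  have hne : (Finset.univ : Finset (Fin r)).Nonempty := by
    by_contra hcon
    rw [Finset.not_nonempty_iff_eq_empty] at hcon
    apply hw0
    ext i
    exact absurd (Finset.mem_univ i) (by rw [hcon]; simp)
  obtain ⟨i, -, hi⟩ := Finset.exists_max_image Finset.univ (fun i => ‖w i‖) hne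
  have hipos : 0 < ‖w i‖ := by
    rw [norm_pos_iff]
    intro hz
    apply hw0
    ext j
    have := hi j (Finset.mem_univ j)
    simp only [hz, norm_zero] at this
    simpa using le_antisymm this (norm_nonneg _)
  have h5 : μ * w i = ∑ j, ((B * X) i j : ℂ) * w j := by
    have h6 := congrFun hw2 i
    rw [← hBX] at h6
    simp only [Pi.smul_apply, smul_eq_mul] at h6
    rw [← h6]
    simp [Matrix.mulVec, dotProduct]
  have h7 : ‖μ‖ * ‖w i‖ ≤ R * ‖w i‖ := by
    calc ‖μ‖ * ‖w i‖ = ‖∑ j, ((B * X) i j : ℂ) * w j‖ := by rw [← norm_mul, h5]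
      _ ≤ ∑ j, ‖((B * X) i j : ℂ) * w j‖ := norm_sum_le _ _
      _ = ∑ j, (B * X) i j * ‖w j‖ := by
          refine Finset.sum_congr rfl fun j _ => ?_
          rw [norm_mul, Complex.norm_real, Real.norm_of_nonneg (hnn i j)]
      _ ≤ ∑ j, (B * X) i j * ‖w i‖ := by
          refine Finset.sum_le_sum fun j _ => ?_
          exact mul_le_mul_of_nonneg_left (hi j (Finset.mem_univ j)) (hnn i j)
      _ = (∑ j, (B * X) i j) * ‖w i‖ := by rw [Finset.sum_mul]
      _ ≤ R * ‖w i‖ := mul_le_mul_of_nonneg_right (hrow i) hipos.le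
  exact le_of_mul_le_mul_right h7 hipos

/-- The trace of a nonnegative `r × r` matrix of rank at most `N` is at most `N` times the largest
row sum. -/
theorem trace_le {N r : ℕ} (B : Matrix (Fin r) (Fin N) ℝ) (X : Matrix (Fin N) (Fin r) ℝ)
    (R : ℝ) (hR : 0 ≤ R) (hnn : ∀ i j, 0 ≤ (B * X) i j) (hrow : ∀ i, ∑ j, (B * X) i j ≤ R) :
    (B * X).trace ≤ N * R := by
  classical
  have h1 : ((B * X).trace : ℂ) = ((X * B).map (algebraMap ℝ ℂ)).trace := by
    rw [Matrix.trace_mul_comm]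
    simp [Matrix.trace]
  have h2 : ((X * B).map (algebraMap ℝ ℂ)).trace
      = ((X * B).map (algebraMap ℝ ℂ)).charpoly.roots.sum :=
    Matrix.trace_eq_sum_roots_charpoly _
  have hcard : Multiset.card ((X * B).map (algebraMap ℝ ℂ)).charpoly.roots ≤ N := by
    refine (Polynomial.card_roots' _).trans ?_
    rw [Matrix.charpoly_natDegree_eq_dim]
    simp
  have key : ∀ s : Multiset ℂ, (∀ μ ∈ s, ‖μ‖ ≤ R) → ‖s.sum‖ ≤ Multiset.card s * R := by
    intro s
    induction s using Multiset.induction_on with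
    | empty => intro _; simp
    | cons a s ih =>
      intro h
      rw [Multiset.sum_cons, Multiset.card_cons]
      have h3 := ih fun μ hμ => h μ (Multiset.mem_cons_of_mem hμ)
      have h4 := h a (Multiset.mem_cons_self a s)
      push_cast
      calc ‖a + s.sum‖ ≤ ‖a‖ + ‖s.sum‖ := norm_add_le _ _
        _ ≤ R + Multiset.card s * R := add_le_add h4 h3
        _ = (Multiset.card s + 1) * R := by ring
  have h3 : ‖((B * X).trace : ℂ)‖ ≤ N * R := by
    rw [h1, h2]
    refine (key _ fun μ hμ => norm_root_le B X R hR hnn hrow μ hμ).trans ?_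
    exact mul_le_mul_of_nonneg_right (by exact_mod_cast hcard) hR
  rw [Complex.norm_real] at h3
  exact (le_abs_self _).trans h3

/-- LEMMA 2. `C` is any set with the separation property (closed convex cone). If `ys ∈ C`,
none of the vectors `ys - N x_i` is in `C`, all `x_i` are in `C` and `R ys - ∑ x_i ∈ C`, then
there are fewer than `N ^ 2 * R` vectors `x_i` (or none). -/
theorem few_exceptions {N r : ℕ} (C : Set (Fin N → ℝ))
    (hsep : ∀ v, v ∉ C → ∃ n : Fin N → ℝ, (∀ c ∈ C, 0 ≤ n ⬝ᵥ c) ∧ n ⬝ᵥ v < 0)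
    (R : ℝ) (hR : 0 ≤ R) (ys : Fin N → ℝ) (hys : ys ∈ C)
    (x : Fin r → Fin N → ℝ) (hx : ∀ i, x i ∈ C)
    (hout : ∀ i, ys - (N : ℝ) • x i ∉ C)
    (hsum : R • ys - ∑ i, x i ∈ C) (hr : 0 < r) : (r : ℝ) < (N : ℝ) ^ 2 * R := by
  classical
  choose n hn hneg using fun i => hsep _ (hout i)
  have hN : 0 < N := by
    rcases Nat.eq_zero_or_pos N with h | h
    · subst h
      have := hneg ⟨0, hr⟩
      simp [dotProduct] at this
    · exact h
  have hN' : (0 : ℝ) < N := by exact_mod_cast hN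
  -- values
  have hpos : ∀ i, 0 < n i ⬝ᵥ ys := by
    intro i
    rcases lt_or_eq_of_le (hn i ys hys) with h | h
    · exact h
    · exfalso
      have h1 : 0 ≤ n i ⬝ᵥ (R • ys - ∑ j, x j) := hn i _ hsum
      rw [dotProduct_sub, dotProduct_smul, ← h, smul_zero, zero_sub, dotProduct_sum] at h1
      have h2 : ∀ j, 0 ≤ n i ⬝ᵥ x j := fun j => hn i _ (hx j)
      have h3 : n i ⬝ᵥ x i ≤ ∑ j, n i ⬝ᵥ x j :=
        Finset.single_le_sum (f := fun j => n i ⬝ᵥ x j) (fun j _ => h2 j) (Finset.mem_univ i)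
      have h4 : n i ⬝ᵥ x i = 0 := le_antisymm (by linarith) (h2 i)
      have h5 := hneg i
      rw [dotProduct_sub, dotProduct_smul, ← h, h4] at h5
      simp at h5
  -- the matrices
  let B : Matrix (Fin r) (Fin N) ℝ := fun i k => n i k / (n i ⬝ᵥ ys)
  let X : Matrix (Fin N) (Fin r) ℝ := fun k j => x j k
  have hBX : ∀ i j, (B * X) i j = (n i ⬝ᵥ x j) / (n i ⬝ᵥ ys) := by
    intro i j
    rw [Matrix.mul_apply]
    simp only [dotProduct, Finset.sum_div]
    refine Finset.sum_congr rfl fun k _ => ?_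
    change n i k / _ * x j k = _
    simp only [dotProduct]
    ring
  have hnn : ∀ i j, 0 ≤ (B * X) i j := by
    intro i j
    rw [hBX]
    exact div_nonneg (hn i _ (hx j)) (hpos i).le
  have hrow : ∀ i, ∑ j, (B * X) i j ≤ R := by
    intro i
    have h1 : 0 ≤ n i ⬝ᵥ (R • ys - ∑ j, x j) := hn i _ hsum
    rw [dotProduct_sub, dotProduct_smul, dotProduct_sum, smul_eq_mul] at h1
    have h2 : ∑ j, (B * X) i j = (∑ j, n i ⬝ᵥ x j) / (n i ⬝ᵥ ys) := by
      rw [Finset.sum_div]
      exact Finset.sum_congr rfl fun j _ => hBX i j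
    rw [h2, div_le_iff₀ (hpos i)]
    linarith
  have hdiag : ∀ i, 1 / (N : ℝ) < (B * X) i i := by
    intro i
    rw [hBX, div_lt_div_iff₀ hN' (hpos i), one_mul]
    have h5 := hneg i
    rw [dotProduct_sub, dotProduct_smul, smul_eq_mul] at h5
    linarith
  have htr := trace_le B X R hR hnn hrow
  have hlow : (r : ℝ) * (1 / N) < (B * X).trace := by
    have h1 : ∑ i : Fin r, (1 / (N : ℝ)) < ∑ i, (B * X) i i := by
      refine Finset.sum_lt_sum_of_nonempty ⟨⟨0, hr⟩, Finset.mem_univ _⟩ fun i _ => hdiag i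
    simpa [Matrix.trace] using h1
  have h6 : (r : ℝ) * (1 / N) < N * R := lt_of_lt_of_le hlow htr
  have h7 : (r : ℝ) * (1 / N) * N < N * R * N := mul_lt_mul_of_pos_right h6 hN'
  have h8 : (r : ℝ) * (1 / N) * N = r := by field_simp
  rw [h8] at h7
  calc (r : ℝ) < N * R * N := h7
    _ = (N : ℝ) ^ 2 * R := by ring

end Pool.HMS
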