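import Pool.Agent.H91.HMS.RBase

/-!
# HMS box 2 (ROUND): small library (tabulations, affine functionals)
-/

set_option autoImplicit false

namespace Pool.HMS

open TMLib Finset

theorem length_tab (n : ℕ) (f : ℕ → ℚ) : (tab n f).length = n := by simp [tab]

theorem length_tabM (n m : ℕ) (f : ℕ → ℕ → ℚ) : (tabM n m f).length = n := by simp [tabM]

theorem length_of_mem_tabM {n m : ℕ} {f : ℕ → ℕ → ℚ} {r : Vec} (h : r ∈ tabM n m f) :
    r.length = m := by
  unfold tabM at h
  rw [List.mem_map] at h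
  obtain ⟨i, _, rfl⟩ := h
  exact length_tab _ _

theorem fn_tab (n : ℕ) (f : ℕ → ℚ) (i : ℕ) : fn (tab n f) i = if i < n then f i else 0 := by
  unfold fn tab
  rw [List.getD_eq_getElem?_getD, List.getElem?_map]
  by_cases h : i < n
  · simp [h]
  · simp [h]

theorem ent_tabM (n m : ℕ) (f : ℕ → ℕ → ℚ) (i j : ℕ) :
    ent (tabM n m f) i j = if i < n ∧ j < m then f i j else 0 := by
  unfold ent tabM
  rw [List.getD_eq_getElem?_getD, List.getElem?_map]
  by_cases h : i < n
  · simp [h, fn_tab]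
  · simp [h, fn]

theorem rtab_thm : S_RTAB := ⟨fn_tab, ent_tabM⟩

theorem fn_of_le {v : Vec} {i : ℕ} (h : v.length ≤ i) : fn v i = 0 := by
  unfold fn
  rw [List.getD_eq_getElem?_getD, List.getElem?_eq_none h]
  rfl

theorem supp_fn {v : Vec} {n : ℕ} (h : v.length ≤ n) : Supp n (fn v) :=
  fun _ hi => fn_of_le (h.trans hi)

theorem supp_tab (n : ℕ) (f : ℕ → ℚ) : Supp n (fn (tab n f)) :=
  supp_fn (length_tab n f).le

theorem supp_tabM (n m : ℕ) (f : ℕ → ℕ → ℚ) (i : ℕ) : Supp m (ent (tabM n m f) i) := by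
  intro j hj
  rw [ent_tabM, if_neg (by omega)]

/-- an affine functional in terms of its linear part -/
theorem aff_eq (n : ℕ) (s x : ℕ → ℚ) : aff n s x = s 0 + lin n (fun i => s (i + 1)) x := rfl

theorem aff_congr {n : ℕ} {s s' x x' : ℕ → ℚ} (h0 : s 0 = s' 0)
    (h : ∀ i < n, s (i + 1) * x i = s' (i + 1) * x' i) : aff n s x = aff n s' x' := by
  unfold aff
  rw [h0]
  congr 1
  exact Finset.sum_congr rfl fun i hi => h i (Finset.mem_range.1 hi)

theorem aff_sub (n : ℕ) (s x y : ℕ → ℚ) :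
    aff n s x - aff n s y = lin n (fun i => s (i + 1)) (fun i => x i - y i) := by
  unfold aff lin
  rw [add_sub_add_left_eq_sub, ← Finset.sum_sub_distrib]
  exact Finset.sum_congr rfl fun i _ => by ring

theorem lin_add (n : ℕ) (s x y : ℕ → ℚ) : lin n s (fun i => x i + y i) = lin n s x + lin n s y := by
  unfold lin
  rw [← Finset.sum_add_distrib]
  exact Finset.sum_congr rfl fun i _ => by ring

theorem lin_sub (n : ℕ) (s x y : ℕ → ℚ) : lin n s (fun i => x i - y i) = lin n s x - lin n s y := by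
  unfold lin
  rw [← Finset.sum_sub_distrib]
  exact Finset.sum_congr rfl fun i _ => by ring

theorem lin_smul (n : ℕ) (s x : ℕ → ℚ) (c : ℚ) : lin n s (fun i => c * x i) = c * lin n s x := by
  unfold lin
  rw [Finset.mul_sum]
  exact Finset.sum_congr rfl fun i _ => by ring

theorem lin_smul_left (n : ℕ) (s x : ℕ → ℚ) (c : ℚ) :
    lin n (fun i => c * s i) x = c * lin n s x := by
  unfold lin
  rw [Finset.mul_sum]
  exact Finset.sum_congr rfl fun i _ => by ring

theorem lin_sum {ι : Type*} (n : ℕ) (s : ℕ → ℚ) (t : Finset ι) (x : ι → ℕ → ℚ) :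
    lin n s (fun i => ∑ k ∈ t, x k i) = ∑ k ∈ t, lin n s (x k) := by
  unfold lin
  simp_rw [Finset.mul_sum]
  exact Finset.sum_comm

theorem lin_sum_left {ι : Type*} (n : ℕ) (t : Finset ι) (s : ι → ℕ → ℚ) (x : ℕ → ℚ) :
    lin n (fun i => ∑ k ∈ t, s k i) x = ∑ k ∈ t, lin n (s k) x := by
  unfold lin
  simp_rw [Finset.sum_mul]
  exact Finset.sum_comm

/-- value of an affine functional at an affine combination (weights with sum `1`) -/
theorem aff_comb {ι : Type*} (n : ℕ) (s : ℕ → ℚ) (t : Finset ι) (w : ι → ℚ) (x : ι → ℕ → ℚ)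
    (hw : ∑ k ∈ t, w k = 1) :
    aff n s (fun i => ∑ k ∈ t, w k * x k i) = ∑ k ∈ t, w k * aff n s (x k) := by
  have h1 : ∀ k, w k * aff n s (x k) = w k * s 0 + lin n (fun i => s (i + 1)) (fun i => w k * x k i) := by
    intro k
    rw [lin_smul, aff_eq]; ring
  simp_rw [h1]
  rw [Finset.sum_add_distrib, ← Finset.sum_mul, hw, one_mul, aff_eq, ← lin_sum]

/-- value of an affine functional at `x + c (y - x)` -/
theorem aff_line (n : ℕ) (s x y : ℕ → ℚ) (c : ℚ) :
    aff n s (fun i => x i + c * (y i - x i)) = aff n s x + c * (aff n s y - aff n s x) := by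
  rw [aff_sub, ← lin_smul, aff_eq, aff_eq, lin_add]
  ring

theorem IsI.zero : IsI 0 := ⟨0, by simp⟩
theorem IsI.one : IsI 1 := ⟨1, by simp⟩
theorem IsI.nat (n : ℕ) : IsI (n : ℚ) := ⟨n, by simp⟩
theorem IsI.int (n : ℤ) : IsI (n : ℚ) := ⟨n, rfl⟩
theorem IsI.add {a b : ℚ} (ha : IsI a) (hb : IsI b) : IsI (a + b) := by
  obtain ⟨x, rfl⟩ := ha
  obtain ⟨y, rfl⟩ := hb
  exact ⟨x + y, by push_cast; ring⟩
theorem IsI.neg {a : ℚ} (ha : IsI a) : IsI (-a) := by
  obtain ⟨x, rfl⟩ := ha
  exact ⟨-x, by push_cast; ring⟩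
theorem IsI.sub {a b : ℚ} (ha : IsI a) (hb : IsI b) : IsI (a - b) := by
  rw [sub_eq_add_neg]; exact ha.add hb.neg
theorem IsI.mul {a b : ℚ} (ha : IsI a) (hb : IsI b) : IsI (a * b) := by
  obtain ⟨x, rfl⟩ := ha
  obtain ⟨y, rfl⟩ := hb
  exact ⟨x * y, by push_cast; ring⟩
theorem IsI.pow {a : ℚ} (ha : IsI a) (n : ℕ) : IsI (a ^ n) := by
  obtain ⟨x, rfl⟩ := ha
  exact ⟨x ^ n, by push_cast; ring⟩
theorem IsI.sum {ι : Type*} {t : Finset ι} {f : ι → ℚ} (h : ∀ i ∈ t, IsI (f i)) :
    IsI (∑ i ∈ t, f i) := by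
  classical
  induction t using Finset.induction_on with
  | empty => simpa using IsI.zero
  | insert a t ha ih =>
    rw [Finset.sum_insert ha]
    exact (h a (Finset.mem_insert_self _ _)).add
      (ih fun i hi => h i (Finset.mem_insert_of_mem hi))
theorem IsI.prod {ι : Type*} {t : Finset ι} {f : ι → ℚ} (h : ∀ i ∈ t, IsI (f i)) :
    IsI (∏ i ∈ t, f i) := by
  classical
  induction t using Finset.induction_on with
  | empty => simpa using IsI.one
  | insert a t ha ih =>
    rw [Finset.prod_insert ha]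
    exact (h a (Finset.mem_insert_self _ _)).mul
      (ih fun i hi => h i (Finset.mem_insert_of_mem hi))

theorem RD_pos (D : ℕ) : 0 < RD D := by unfold RD; positivity

theorem rhoD_pos (D : ℕ) : 0 < rhoD D := by
  unfold rhoD
  have := RD_pos D
  positivity

end Pool.HMS
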