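import Pool.Agent.H91.HMS.SepQ
import Pool.Agent.H91.HMS.Lem2
import Pool.Agent.H91.HMS.RLib

/-!
# HMS: Lemmas 1 and 2 and section 5 in the conventions of `Pool.Agent.H76.HMS.Base`

* `cone_sep`: separation from a finitely generated cone;
* `cone_bounded_sep`: integral separators with bounded entries;
* `few_exceptionsQ`: Lemma 2;
* `deep_mem_IC`: Lemma 1.
-/

set_option autoImplicit false

namespace Pool.HMS

open Finset Matrix

/-! ### Functions `ℕ → ℚ` and vectors `Fin n → ℚ` -/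

/-- restriction to the first `n` coordinates -/
def toF (n : ℕ) (x : ℕ → ℚ) : Fin n → ℚ := fun i => x i

/-- extension by zero -/
def ofF {n : ℕ} (v : Fin n → ℚ) : ℕ → ℚ := fun i => if h : i < n then v ⟨i, h⟩ else 0

theorem supp_ofF {n : ℕ} (v : Fin n → ℚ) : Supp n (ofF v) := fun i hi => by
  simp [ofF, not_lt.mpr hi]

@[simp] theorem toF_ofF {n : ℕ} (v : Fin n → ℚ) : toF n (ofF v) = v := by
  ext i; simp [toF, ofF]

theorem ofF_toF {n : ℕ} {x : ℕ → ℚ} (h : Supp n x) : ofF (toF n x) = x := by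
  ext i
  by_cases hi : i < n
  · simp [ofF, toF, hi]
  · simp [ofF, hi, h i (not_lt.mp hi)]

theorem toF_inj {n : ℕ} {x y : ℕ → ℚ} (hx : Supp n x) (hy : Supp n y) (h : toF n x = toF n y) :
    x = y := by
  rw [← ofF_toF hx, ← ofF_toF hy, h]

theorem toF_sum {ι : Type*} (n : ℕ) (s : Finset ι) (f : ι → ℕ → ℚ) :
    toF n (∑ i ∈ s, f i) = ∑ i ∈ s, toF n (f i) := by
  ext j; simp [toF, Finset.sum_apply]

theorem toF_smul (n : ℕ) (c : ℚ) (x : ℕ → ℚ) : toF n (c • x) = c • toF n x := rfl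

theorem lin_eq_dot (n : ℕ) (s x : ℕ → ℚ) : lin n s x = toF n s ⬝ᵥ toF n x := by
  unfold lin dotProduct toF
  exact Finset.sum_range _

theorem lin_smul' (n : ℕ) (s x : ℕ → ℚ) (c : ℚ) : lin n s (c • x) = c * lin n s x :=
  lin_smul n s x c

theorem lin_sum' {ι : Type*} (n : ℕ) (s : ℕ → ℚ) (t : Finset ι) (x : ι → ℕ → ℚ) :
    lin n s (∑ k ∈ t, x k) = ∑ k ∈ t, lin n s (x k) := by
  rw [← lin_sum]
  congr 1
  ext i
  simp [Finset.sum_apply]

/-! ### Cones -/

theorem Cone.zero_mem (A : Set (ℕ → ℚ)) : (0 : ℕ → ℚ) ∈ Cone A :=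
  ⟨0, fun _ => 0, fun _ => 0, fun i hi => absurd hi (by omega), by simp⟩

theorem Cone.add_single {A : Set (ℕ → ℚ)} {u a : ℕ → ℚ} {c : ℚ} (hu : u ∈ Cone A) (hc : 0 ≤ c)
    (ha : a ∈ A) : u + c • a ∈ Cone A := by
  obtain ⟨k, d, b, hdb, rfl⟩ := hu
  refine ⟨k + 1, fun i => if i < k then d i else c, fun i => if i < k then b i else a, ?_, ?_⟩
  · intro i hi
    by_cases h : i < k
    · simpa [h] using hdb i h
    · simpa [h] using ⟨hc, ha⟩
  · rw [Finset.sum_range_succ]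
    simp only [lt_irrefl, if_false]
    congr 1
    refine Finset.sum_congr rfl fun i hi => ?_
    simp [Finset.mem_range.1 hi]

theorem Cone.sum_mem {ι : Type*} {A : Set (ℕ → ℚ)} (s : Finset ι) (c : ι → ℚ) (a : ι → ℕ → ℚ)
    (h : ∀ i ∈ s, 0 ≤ c i ∧ a i ∈ A) : ∑ i ∈ s, c i • a i ∈ Cone A := by
  classical
  induction s using Finset.induction_on with
  | empty => simpa using Cone.zero_mem A
  | insert i s hi ih =>
    rw [Finset.sum_insert hi, add_comm]
    exact Cone.add_single (ih fun j hj => h j (Finset.mem_insert_of_mem hj))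
      (h i (Finset.mem_insert_self _ _)).1 (h i (Finset.mem_insert_self _ _)).2

theorem Cone.smul_mem {A : Set (ℕ → ℚ)} {u : ℕ → ℚ} {c : ℚ} (hu : u ∈ Cone A) (hc : 0 ≤ c) :
    c • u ∈ Cone A := by
  obtain ⟨k, d, b, hdb, rfl⟩ := hu
  refine ⟨k, fun i => c * d i, b, fun i hi => ⟨mul_nonneg hc (hdb i hi).1, (hdb i hi).2⟩, ?_⟩
  rw [Finset.smul_sum]
  exact Finset.sum_congr rfl fun i _ => by rw [smul_smul]

theorem Cone.add_mem {A : Set (ℕ → ℚ)} {u v : ℕ → ℚ} (hu : u ∈ Cone A) (hv : v ∈ Cone A) :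
    u + v ∈ Cone A := by
  obtain ⟨k, d, b, hdb, rfl⟩ := hv
  induction k with
  | zero => simpa using hu
  | succ k ih =>
    rw [Finset.sum_range_succ, ← add_assoc]
    exact Cone.add_single (ih fun i hi => hdb i (by omega)) (hdb k (by omega)).1
      (hdb k (by omega)).2

theorem Cone.subset {A : Set (ℕ → ℚ)} {a : ℕ → ℚ} (ha : a ∈ A) : a ∈ Cone A := by
  have := Cone.add_single (Cone.zero_mem A) zero_le_one ha
  simpa using this

theorem Cone.nonneg {A : Set (ℕ → ℚ)} {n : ℕ} {w : ℕ → ℚ} (h : ∀ a ∈ A, 0 ≤ lin n w a) :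
    ∀ u ∈ Cone A, 0 ≤ lin n w u := by
  rintro u ⟨k, c, a, hca, rfl⟩
  rw [lin_sum']
  refine Finset.sum_nonneg fun i hi => ?_
  rw [lin_smul']
  have := hca i (Finset.mem_range.1 hi)
  exact mul_nonneg this.1 (h _ this.2)

theorem Cone.supp {A : Set (ℕ → ℚ)} {n : ℕ} (h : ∀ a ∈ A, Supp n a) :
    ∀ u ∈ Cone A, Supp n u := by
  rintro u ⟨k, c, a, hca, rfl⟩ i hi
  rw [Finset.sum_apply]
  refine Finset.sum_eq_zero fun j hj => ?_
  have := h _ (hca j (Finset.mem_range.1 hj)).2 i hi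
  simp [this]

/-- Separation from a finitely generated cone. -/
theorem cone_sep {n : ℕ} {A : Set (ℕ → ℚ)} (hfin : A.Finite) (hA : ∀ a ∈ A, Supp n a)
    {p : ℕ → ℚ} (hp : Supp n p) (hpA : p ∉ Cone A) :
    ∃ w, Supp n w ∧ (∀ u ∈ Cone A, 0 ≤ lin n w u) ∧ lin n w p < 0 := by
  classical
  obtain ⟨w, hw, hwp⟩ := LQ.farkas (hfin.toFinset.image (toF n)) (toF n p) (by
    rintro ⟨c, hc, hcp⟩
    apply hpA
    rw [Finset.sum_image] at hcp
    · have : p = ∑ a ∈ hfin.toFinset, c (toF n a) • a := by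
        refine toF_inj hp ?_ ?_
        · intro i hi
          rw [Finset.sum_apply]
          refine Finset.sum_eq_zero fun a ha => ?_
          have := hA a (hfin.mem_toFinset.1 ha) i hi
          simp [this]
        · rw [hcp, toF_sum]
          rfl
      rw [this]
      refine Cone.sum_mem _ _ _ fun a ha => ⟨hc _ (Finset.mem_image_of_mem _ ha),
        hfin.mem_toFinset.1 ha⟩
    · intro a ha b hb hab
      exact toF_inj (hA a (hfin.mem_toFinset.1 ha)) (hA b (hfin.mem_toFinset.1 hb)) hab)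
  refine ⟨ofF w, supp_ofF w, Cone.nonneg fun a ha => ?_, ?_⟩
  · rw [lin_eq_dot, toF_ofF]
    exact hw _ (Finset.mem_image_of_mem _ (hfin.mem_toFinset.2 ha))
  · rw [lin_eq_dot, toF_ofF]
    exact hwp

/-- an integral function as an integer vector -/
theorem Lat.exists_int {n : ℕ} {x : ℕ → ℚ} (hx : Lat n x) :
    ∃ z : Fin n → ℤ, LQ.toQ z = toF n x := by
  choose z hz using hx.2
  exact ⟨fun i => z i, by ext i; simp [LQ.toQ, toF, hz]⟩

theorem lat_ofF {n : ℕ} (z : Fin n → ℤ) : Lat n (ofF (LQ.toQ z)) := by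
  refine ⟨supp_ofF _, fun i => ?_⟩
  by_cases h : i < n
  · exact ⟨z ⟨i, h⟩, by simp [ofF, h, LQ.toQ]⟩
  · exact ⟨0, by simp [ofF, h]⟩

theorem toQ_inj {n : ℕ} : Function.Injective (LQ.toQ : (Fin n → ℤ) → (Fin n → ℚ)) := by
  intro x y hxy
  ext i
  have := congrFun hxy i
  simpa [LQ.toQ] using this

/-- Bounded integral separators. -/
theorem cone_bounded_sep {n : ℕ} {A : Set (ℕ → ℚ)} (hfin : A.Finite) (hA : ∀ a ∈ A, Lat n a)
    {p : ℕ → ℚ} (hp : Lat n p) {X : ℕ} (hX : 1 ≤ X) (hAX : ∀ a ∈ A, ∀ i, |a i| ≤ X)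
    (hpX : ∀ i, |p i| ≤ X) (hpA : p ∉ Cone A) :
    ∃ w, Lat n w ∧ (∀ i, |w i| ≤ n * (n.factorial * (X : ℚ) ^ n)) ∧
      (∀ u ∈ Cone A, 0 ≤ lin n w u) ∧ lin n w p ≤ -1 := by
  classical
  obtain ⟨pz, hpz⟩ := hp.exists_int
  let As : Finset (Fin n → ℤ) := hfin.toFinset.attach.image
    fun a => (hA a.1 (hfin.mem_toFinset.1 a.2)).exists_int.choose
  have hAs : ∀ z ∈ As, ∃ a ∈ A, LQ.toQ z = toF n a := by
    intro z hz
    obtain ⟨a, -, rfl⟩ := Finset.mem_image.1 hz
    exact ⟨a.1, hfin.mem_toFinset.1 a.2, (hA a.1 (hfin.mem_toFinset.1 a.2)).exists_int.choose_spec⟩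
  have hAs' : ∀ a ∈ A, ∃ z ∈ As, LQ.toQ z = toF n a := by
    intro a ha
    exact ⟨_, Finset.mem_image_of_mem _ (Finset.mem_attach _ ⟨a, hfin.mem_toFinset.2 ha⟩),
      (hA a ha).exists_int.choose_spec⟩
  have hbd : ∀ (z : Fin n → ℤ) (a : ℕ → ℚ), LQ.toQ z = toF n a → (∀ i, |a i| ≤ X) →
      ∀ i, |z i| ≤ (X : ℤ) := by
    intro z a hza ha i
    have h1 : (z i : ℚ) = a i := congrFun hza i
    have h2 := ha i
    rw [← h1] at h2
    have h3 : ((|z i| : ℤ) : ℚ) ≤ ((X : ℤ) : ℚ) := by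
      rw [Int.cast_abs]; exact_mod_cast h2
    exact_mod_cast h3
  obtain ⟨w, hw, hwp, hwb⟩ := LQ.bounded_separator As pz (X : ℤ) (by exact_mod_cast hX)
    (by
      intro z hz
      obtain ⟨a, ha, hza⟩ := hAs z hz
      exact hbd z a hza (hAX a ha))
    (hbd pz p hpz hpX) (by
      rintro ⟨c, hc, hcp⟩
      apply hpA
      have h1 : p = ∑ z ∈ As, c z • ofF (LQ.toQ z) := by
        refine toF_inj hp.1 ?_ ?_
        · intro i hi
          rw [Finset.sum_apply]
          refine Finset.sum_eq_zero fun z _ => ?_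
          have := supp_ofF (LQ.toQ z) i hi
          simp [this]
        · rw [← hpz, hcp, toF_sum]
          refine Finset.sum_congr rfl fun z _ => ?_
          rw [toF_smul, toF_ofF]
      rw [h1]
      refine Cone.sum_mem _ _ _ fun z hz => ⟨hc z hz, ?_⟩
      obtain ⟨a, ha, hza⟩ := hAs z hz
      rw [hza, ofF_toF (hA a ha).1]
      exact ha)
  have hdot : ∀ (x y : Fin n → ℤ), ((x ⬝ᵥ y : ℤ) : ℚ) = LQ.toQ x ⬝ᵥ LQ.toQ y := by
    intro x y; simp [dotProduct, LQ.toQ]
  refine ⟨ofF (LQ.toQ w), lat_ofF w, ?_, Cone.nonneg fun a ha => ?_, ?_⟩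
  · intro i
    by_cases h : i < n
    · have h1 := hwb ⟨i, h⟩
      have h2 : ((|w ⟨i, h⟩| : ℤ) : ℚ) ≤ ((n * (n.factorial * (X : ℤ) ^ n) : ℤ) : ℚ) := by
        exact_mod_cast h1
      simp only [ofF, h, dite_true, LQ.toQ]
      rw [Int.cast_abs] at h2
      push_cast at h2
      exact h2
    · simp only [ofF, h, dite_false, abs_zero]
      positivity
  · obtain ⟨z, hz, hza⟩ := hAs' a ha
    rw [lin_eq_dot, toF_ofF, ← hza, ← hdot]
    exact_mod_cast hw z hz
  · rw [lin_eq_dot, toF_ofF, ← hpz, ← hdot]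
    exact_mod_cast hwp

/-! ### Lemma 2 -/

theorem trace_leQ {N r : ℕ} (B : Matrix (Fin r) (Fin N) ℚ) (X : Matrix (Fin N) (Fin r) ℚ)
    (R : ℚ) (hR : 0 ≤ R) (hnn : ∀ i j, 0 ≤ (B * X) i j) (hrow : ∀ i, ∑ j, (B * X) i j ≤ R) :
    (B * X).trace ≤ N * R := by
  have hm : ∀ i j, (B.map (Rat.cast : ℚ → ℝ) * X.map (Rat.cast : ℚ → ℝ)) i j =
      (((B * X) i j : ℚ) : ℝ) := by
    intro i j
    simp [Matrix.mul_apply]
  have h := trace_le (B.map (Rat.cast : ℚ → ℝ)) (X.map (Rat.cast : ℚ → ℝ)) (R : ℝ)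
    (by exact_mod_cast hR)
    (fun i j => by rw [hm]; exact_mod_cast hnn i j)
    (fun i => by
      simp_rw [hm]
      exact_mod_cast hrow i)
  have h2 : (B.map (Rat.cast : ℚ → ℝ) * X.map (Rat.cast : ℚ → ℝ)).trace =
      (((B * X).trace : ℚ) : ℝ) := by
    simp only [Matrix.trace, Matrix.diag_apply, hm]
    push_cast
    rfl
  rw [h2] at h
  exact_mod_cast h

/-- LEMMA 2 (in coordinates `Fin N`). -/
theorem few_exceptionsF {N r : ℕ} (C : Set (Fin N → ℚ))
    (hsep : ∀ v, v ∉ C → ∃ n : Fin N → ℚ, (∀ c ∈ C, 0 ≤ n ⬝ᵥ c) ∧ n ⬝ᵥ v < 0)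
    (R : ℚ) (hR : 0 ≤ R) (ys : Fin N → ℚ) (hys : ys ∈ C)
    (x : Fin r → Fin N → ℚ) (hx : ∀ i, x i ∈ C)
    (hout : ∀ i, ys - (N : ℚ) • x i ∉ C)
    (hsum : R • ys - ∑ i, x i ∈ C) (hr : 0 < r) : (r : ℚ) < (N : ℚ) ^ 2 * R := by
  classical
  choose n hn hneg using fun i => hsep _ (hout i)
  have hN : 0 < N := by
    rcases Nat.eq_zero_or_pos N with h | h
    · subst h
      have := hneg ⟨0, hr⟩
      simp [dotProduct] at this
    · exact h
  have hN' : (0 : ℚ) < N := by exact_mod_cast hN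
  -- values
  have hpos : ∀ i, 0 < n i ⬝ᵥ ys := by
    intro i
    rcases lt_or_eq_of_le (hn i ys hys) with h | h
    · exact h
    · exfalso
      have h1 : 0 ≤ n i ⬝ᵥ (R • ys - ∑ j, x j) := hn i _ hsum
      rw [dotProduct_sub, dotProduct_smul, ← h, smul_zero, zero_sub, dotProduct_sum] at h1
      have h2 : ∀ j, 0 ≤ n i ⬝ᵥ x j := fun j => hn i _ (hx j)
      have h3 : n i ⬝ᵥ x i ≤ ∑ j, n i ⬝ᵥ x j :=
        Finset.single_le_sum (f := fun j => n i ⬝ᵥ x j) (fun j _ => h2 j) (Finset.mem_univ i)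
      have h4 : n i ⬝ᵥ x i = 0 := le_antisymm (by linarith) (h2 i)
      have h5 := hneg i
      rw [dotProduct_sub, dotProduct_smul, ← h, h4] at h5
      simp at h5
  -- the matrices
  let B : Matrix (Fin r) (Fin N) ℚ := fun i k => n i k / (n i ⬝ᵥ ys)
  let X : Matrix (Fin N) (Fin r) ℚ := fun k j => x j k
  have hBX : ∀ i j, (B * X) i j = (n i ⬝ᵥ x j) / (n i ⬝ᵥ ys) := by
    intro i j
    rw [Matrix.mul_apply]
    simp only [dotProduct, Finset.sum_div]
    refine Finset.sum_congr rfl fun k _ => ?_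
    change n i k / _ * x j k = _
    simp only [dotProduct]
    ring
  have hnn : ∀ i j, 0 ≤ (B * X) i j := by
    intro i j
    rw [hBX]
    exact div_nonneg (hn i _ (hx j)) (hpos i).le
  have hrow : ∀ i, ∑ j, (B * X) i j ≤ R := by
    intro i
    have h1 : 0 ≤ n i ⬝ᵥ (R • ys - ∑ j, x j) := hn i _ hsum
    rw [dotProduct_sub, dotProduct_smul, dotProduct_sum, smul_eq_mul] at h1
    have h2 : ∑ j, (B * X) i j = (∑ j, n i ⬝ᵥ x j) / (n i ⬝ᵥ ys) := by
      rw [Finset.sum_div]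
      exact Finset.sum_congr rfl fun j _ => hBX i j
    rw [h2, div_le_iff₀ (hpos i)]
    linarith
  have hdiag : ∀ i, 1 / (N : ℚ) < (B * X) i i := by
    intro i
    rw [hBX, div_lt_div_iff₀ hN' (hpos i), one_mul]
    have h5 := hneg i
    rw [dotProduct_sub, dotProduct_smul, smul_eq_mul] at h5
    linarith
  have htr := trace_leQ B X R hR hnn hrow
  have hlow : (r : ℚ) * (1 / N) < (B * X).trace := by
    have h1 : ∑ i : Fin r, (1 / (N : ℚ)) < ∑ i, (B * X) i i := by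
      refine Finset.sum_lt_sum_of_nonempty ⟨⟨0, hr⟩, Finset.mem_univ _⟩ fun i _ => hdiag i
    simpa [Matrix.trace] using h1
  have h6 : (r : ℚ) * (1 / N) < N * R := lt_of_lt_of_le hlow htr
  have h7 : (r : ℚ) * (1 / N) * N < N * R * N := mul_lt_mul_of_pos_right h6 hN'
  have h8 : (r : ℚ) * (1 / N) * N = r := by field_simp
  rw [h8] at h7
  calc (r : ℚ) < N * R * N := h7
    _ = (N : ℚ) ^ 2 * R := by ring

/-- LEMMA 2 (few exceptions): `C` is a set of vectors of dimension `N` with the separation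
property, for instance the cone of a finite set (`cone_sep`). -/
theorem few_exceptionsQ {N r : ℕ} (C : Set (ℕ → ℚ)) (hC : ∀ c ∈ C, Supp N c)
    (hsep : ∀ v, Supp N v → v ∉ C → ∃ w, (∀ c ∈ C, 0 ≤ lin N w c) ∧ lin N w v < 0)
    (R : ℚ) (hR : 0 ≤ R) (ys : ℕ → ℚ) (hys : ys ∈ C)
    (x : ℕ → ℕ → ℚ) (hx : ∀ i < r, x i ∈ C)
    (hout : ∀ i < r, (fun k => ys k - N * x i k) ∉ C)
    (hsum : (fun k => R * ys k - ∑ i ∈ range r, x i k) ∈ C) (hr : 0 < r) :
    (r : ℚ) < (N : ℚ) ^ 2 * R := by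
  have hmem : ∀ v : ℕ → ℚ, Supp N v → (toF N v ∈ toF N '' C ↔ v ∈ C) := by
    intro v hv
    constructor
    · rintro ⟨c, hc, hcv⟩
      rwa [← toF_inj (hC c hc) hv hcv]
    · intro h; exact ⟨v, h, rfl⟩
  refine few_exceptionsF (toF N '' C) ?_ R hR (toF N ys) ⟨ys, hys, rfl⟩
    (fun i => toF N (x i)) (fun i => ⟨x i, hx i i.2, rfl⟩) ?_ ?_ hr
  · intro v hv
    have h1 : ofF v ∉ C := by
      intro h
      exact hv ⟨ofF v, h, toF_ofF v⟩
    obtain ⟨w, hw, hwv⟩ := hsep (ofF v) (supp_ofF v) h1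
    refine ⟨toF N w, ?_, ?_⟩
    · rintro c ⟨c', hc', rfl⟩
      rw [← lin_eq_dot]
      exact hw c' hc'
    · rw [lin_eq_dot, toF_ofF] at hwv
      exact hwv
  · intro i h
    have h1 : Supp N (fun k => ys k - N * x i k) := by
      intro k hk
      simp [hC ys hys k hk, hC _ (hx i i.2) k hk]
    exact hout i i.2 ((hmem _ h1).1 h)
  · have h1 : toF N (fun k => R * ys k - ∑ i ∈ range r, x i k) =
        R • toF N ys - ∑ i : Fin r, toF N (x i) := by
      ext k
      simp only [toF, Pi.sub_apply, Pi.smul_apply, smul_eq_mul, Finset.sum_apply]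
      rw [Finset.sum_range (fun i => x i (k : ℕ))]
    rw [← h1]
    exact ⟨_, hsum, rfl⟩

/-! ### Lemma 1 -/

/-- LEMMA 1 (deep vectors are sums of lattice points).  `P` is a convex set of dimension `e`; the
lattice vector `y` (of dimension `e + 1`) is such that the set of the `x ∈ P` with
`y - (e + 1) (x, 1)` in the cone over the lattice points of `P` is thick. -/
theorem deep_mem_IC {e : ℕ} (P : Set (ℕ → ℚ)) (hP : Convex ℚ P) (hsupp : ∀ x ∈ P, Supp e x)
    (y : ℕ → ℚ) (hy : Lat (e + 1) y) (z : ℕ → ℚ) (hz : Lat e z)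
    (h : ThickCert e {x | x ∈ P ∧ (fun i => y i - (e + 1) * hom e x i) ∈
      Cone (hom e '' {x | Lat e x ∧ x ∈ P})} z) :
    y ∈ IC (hom e '' {x | Lat e x ∧ x ∈ P}) := by
  classical
  obtain ⟨G, hone, -, hin, hround, hcen⟩ := h
  obtain ⟨yz, hyz⟩ := hy.exists_int
  obtain ⟨gz, hgz⟩ := hz.exists_int
  have he : (0 : ℚ) < (e : ℚ) + 1 := by positivity
  have hRD : 0 < RD e := RD_pos e
  -- affine functionals in coordinates
  have haff : ∀ (j : ℕ) (x : Fin e → ℚ), aff e (G j) (ofF x) =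
      G j 0 + (toF e fun i => G j (i + 1)) ⬝ᵥ x := by
    intro j x
    rw [aff_eq, lin_eq_dot, toF_ofF]
  -- lattice points
  set P' : Set (Fin e → ℚ) := {v | ofF v ∈ P} with hP'
  have hP'c : Convex ℚ P' := by
    intro v hv w hw a b ha hb hab
    change ofF (a • v + b • w) ∈ P
    have : ofF (a • v + b • w) = a • ofF v + b • ofF w := by
      ext i
      by_cases hi : i < e <;> simp [ofF, hi]
    rw [this]
    exact hP hv hw ha hb hab
  -- the cone
  have hcone : ∀ (v : Fin e → ℚ) (t : ℚ) (u : ℕ → ℚ),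
      (∀ i : Fin e, u i = v i) → u e = t → u ∈ Cone (hom e '' {x | Lat e x ∧ x ∈ P}) →
      LQ.InCone (LQ.latt P') v t := by
    rintro v t u huv hut ⟨k, c, a, hca, hu⟩
    -- first as a sum over an index type
    have ha : ∀ i : Fin k, ∃ z : Fin e → ℤ, z ∈ LQ.latt P' ∧ a i = hom e (ofF (LQ.toQ z)) := by
      intro i
      obtain ⟨x, ⟨hxL, hxP⟩, hxa⟩ := (hca i i.2).2
      obtain ⟨z, hz⟩ := hxL.exists_int
      refine ⟨z, ?_, ?_⟩
      · change ofF (LQ.toQ z) ∈ P
        rw [hz, ofF_toF hxL.1]; exact hxP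
      · rw [hz, ofF_toF hxL.1, hxa]
    choose z hzP hza using ha
    refine ⟨Finset.univ.image z, fun x => ∑ i ∈ Finset.univ.filter (fun i => z i = x), c i,
      ?_, ?_, ?_, ?_⟩
    · intro x hx
      obtain ⟨i, -, rfl⟩ := Finset.mem_image.1 hx
      exact hzP i
    · intro x _
      exact Finset.sum_nonneg fun i _ => (hca i i.2).1
    · have h1 : ∑ x ∈ Finset.univ.image z, (∑ i ∈ Finset.univ.filter (fun i => z i = x), c i) •
          LQ.toQ x = ∑ i : Fin k, c i • LQ.toQ (z i) := by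
        rw [← Finset.sum_fiberwise_of_maps_to (s := Finset.univ) (t := Finset.univ.image z)
          (g := z) (fun i _ => Finset.mem_image_of_mem _ (Finset.mem_univ i))]
        refine Finset.sum_congr rfl fun x _ => ?_
        rw [Finset.sum_smul]
        refine Finset.sum_congr rfl fun i hi => ?_
        rw [(Finset.mem_filter.1 hi).2]
      rw [h1]
      ext i
      rw [← huv i, hu]
      simp only [Finset.sum_apply, Pi.smul_apply, smul_eq_mul]
      rw [Finset.sum_range (fun j => c j * a j (i : ℕ))]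
      refine Finset.sum_congr rfl fun j _ => ?_
      rw [hza j]
      simp [hom, ofF, LQ.toQ]
    · have h1 : ∑ x ∈ Finset.univ.image z, (∑ i ∈ Finset.univ.filter (fun i => z i = x), c i) =
          ∑ i : Fin k, c i := by
        rw [← Finset.sum_fiberwise_of_maps_to (s := Finset.univ) (t := Finset.univ.image z)
          (g := z) (fun i _ => Finset.mem_image_of_mem _ (Finset.mem_univ i))]
      rw [h1, ← hut, hu]
      simp only [Finset.sum_apply, Pi.smul_apply, smul_eq_mul]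
      rw [Finset.sum_range (fun j => c j * a j e)]
      refine Finset.sum_congr rfl fun j _ => ?_
      rw [hza j]
      simp [hom]
  obtain ⟨s, hsA, hssum, hscard⟩ := LQ.deep_intSum P' hP'c (fun i : Fin e => yz i.castSucc)
    (yz (Fin.last e)) (RD e) (rhoD e) hRD
    (fun j => toF e fun i => G j (i + 1)) (fun j => G j 0) gz
    (by
      intro j
      have h1 := hcen j (Finset.mem_range.2 j.2)
      have h2 : aff e (G j) z = G j 0 + (toF e fun i => G j (i + 1)) ⬝ᵥ LQ.toQ gz := by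
        rw [← haff, hgz, ofF_toF hz.1]
      rw [h2] at h1
      linarith [(abs_le.1 h1).1])
    (by
      intro x hx
      have h1 := hin (ofF x) (supp_ofF x) (by
        intro j hj
        rw [haff]
        exact hx ⟨j, Finset.mem_range.1 hj⟩)
      refine ⟨h1.1, hcone _ _ _ ?_ ?_ h1.2⟩
      · intro i
        have h3 : (yz i.castSucc : ℚ) = y i := congrFun hyz i.castSucc
        simp [LQ.toQ, hom, ofF, h3]
      · have h3 : (yz (Fin.last e) : ℚ) = y e := congrFun hyz (Fin.last e)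
        simp [hom, h3])
    (by
      intro v
      obtain ⟨u, hu, huj⟩ := hround (ofF v) (supp_ofF v)
      obtain ⟨uz, huz⟩ := hu.exists_int
      refine ⟨uz, fun j => ?_⟩
      have h1 := huj j (Finset.mem_range.2 j.2)
      rw [lin_eq_dot] at h1
      have h2 : toF e (fun i => ofF v i - u i) = v - LQ.toQ uz := by
        rw [huz]
        ext i
        simp [toF, ofF]
      rw [h2] at h1
      exact h1)
    (by
      unfold rhoD
      have : 5 * (1 / (5 * RD e * ((e : ℚ) + 1))) = 1 / (RD e * ((e : ℚ) + 1)) := by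
        field_simp
      rw [this])
  -- conclusion
  have hfinal : ∀ (s : Multiset (Fin e → ℤ)), (∀ x ∈ s, x ∈ LQ.latt P') →
      ∃ (k : ℕ) (a : ℕ → ℕ → ℚ), (∀ i < k, a i ∈ hom e '' {x | Lat e x ∧ x ∈ P}) ∧
        (∀ i : Fin e, (∑ j ∈ range k, a j) i = (s.sum i : ℤ)) ∧
        (∑ j ∈ range k, a j) e = (Multiset.card s : ℚ) ∧
        ∀ i, e < i → (∑ j ∈ range k, a j) i = 0 := by
    intro s
    induction s using Multiset.induction_on with
    | empty => intro _; exact ⟨0, fun _ => 0, fun i hi => absurd hi (by omega), by simp, by simp,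
        by simp⟩
    | cons x s ih =>
      intro hs
      obtain ⟨k, a, ha, h1, h2, h3⟩ := ih fun y hy => hs y (Multiset.mem_cons_of_mem hy)
      have hx : hom e (ofF (LQ.toQ x)) ∈ hom e '' {x | Lat e x ∧ x ∈ P} :=
        ⟨_, ⟨lat_ofF x, hs x (Multiset.mem_cons_self x s)⟩, rfl⟩
      have hsum : ∑ j ∈ range (k + 1), (fun j => if j < k then a j else hom e (ofF (LQ.toQ x))) j =
          ∑ j ∈ range k, a j + hom e (ofF (LQ.toQ x)) := by
        rw [Finset.sum_range_succ]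
        simp only [lt_irrefl, if_false]
        congr 1
        exact Finset.sum_congr rfl fun j hj => by simp [Finset.mem_range.1 hj]
      refine ⟨k + 1, fun j => if j < k then a j else hom e (ofF (LQ.toQ x)), ?_, ?_, ?_, ?_⟩
      · intro i _
        by_cases h : i < k
        · simp only [h, if_true]; exact ha i h
        · simp only [h, if_false]; exact hx
      · intro i
        rw [hsum, Pi.add_apply, h1 i, Multiset.sum_cons]
        simp [hom, ofF, LQ.toQ, add_comm]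
      · rw [hsum, Pi.add_apply, h2, Multiset.card_cons]
        simp [hom]
      · intro i hi
        rw [hsum, Pi.add_apply, h3 i hi]
        simp [hom, not_lt.2 hi.le, hi.ne']
  obtain ⟨k, a, ha, h1, h2, h3⟩ := hfinal s hsA
  refine ⟨k, a, ha, ?_⟩
  ext i
  rcases lt_trichotomy i e with hi | hi | hi
  · have h4 := h1 ⟨i, hi⟩
    simp only at h4
    rw [h4, hssum]
    have h3 : (yz (Fin.castSucc ⟨i, hi⟩) : ℚ) = y i := congrFun hyz (Fin.castSucc ⟨i, hi⟩)
    rw [← h3]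
  · subst hi
    rw [h2]
    have h3 : (yz (Fin.last i) : ℚ) = y i := congrFun hyz (Fin.last i)
    rw [← h3, ← hscard]
    simp
  · rw [h3 i hi]
    exact hy.1 i (by omega)

/-- Lattice points of a box form a finite set. -/
theorem finite_lat_box (n : ℕ) (B : ℚ) : {x | Lat n x ∧ Box n B x}.Finite := by
  classical
  have hfin : (Set.Icc (fun _ : Fin n => -⌈B⌉) (fun _ : Fin n => ⌈B⌉)).Finite :=
    Set.toFinite _
  refine (hfin.image fun z : Fin n → ℤ => ofF (LQ.toQ z)).subset ?_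
  rintro x ⟨hxL, hxB⟩
  obtain ⟨z, hz⟩ := hxL.exists_int
  refine ⟨z, ?_, ?_⟩
  · rw [Set.mem_Icc]
    have h1 : ∀ i : Fin n, |(z i : ℚ)| ≤ B := by
      intro i
      have : (z i : ℚ) = x i := congrFun hz i
      rw [this]
      exact hxB.2 i
    constructor
    · intro i
      have h2 := (abs_le.1 (h1 i)).1
      have h3 : (B : ℚ) ≤ ⌈B⌉ := Int.le_ceil B
      have h4 : ((-⌈B⌉ : ℤ) : ℚ) ≤ z i := by push_cast; linarith
      exact_mod_cast h4
    · intro i
      have h2 := (abs_le.1 (h1 i)).2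
      have h3 : (B : ℚ) ≤ ⌈B⌉ := Int.le_ceil B
      have h4 : (z i : ℚ) ≤ (⌈B⌉ : ℤ) := by linarith
      exact_mod_cast h4
  · simp only
    rw [hz, ofF_toF hxL.1]

end Pool.HMS
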