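import Pool.Agent.H91.HMS.RPLib

/-!
# HMS box 2: the step of the cut loop is polynomial time
-/

set_option autoImplicit false

namespace Pool.HMS

open TMLib Finset

section

attribute [local fun_prop] P45.add P45.mul P45.neg P45.sub P45.div P45.le P45.lt P45.castInt
  P45.castNat P45.pow P45.fn' P45.ent' P91.qfloor P91.qceilQ P91.qmax P91.RD'

variable {α : Type} [Enc α] [Fact QOps] [Fact QSums]

theorem ptime_rShr : PTime (fun p : ℕ × Mat × ℕ => rShr p.1 p.2.1 p.2.2) := by
  unfold rShr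
  refine P45.tab' (by fun_prop) ?_
  refine P45.add (P45.mul (by fun_prop) (P91.sumRange (by fun_prop) ?_)) (by fun_prop)
  fun_prop

theorem ptime_rVal : PTime (fun p : ℕ × Vec × Mat × ℕ => rVal p.1 p.2.1 p.2.2.1 p.2.2.2) := by
  unfold rVal
  exact P91.aff' (by fun_prop) (by fun_prop) (by fun_prop)

@[local fun_prop] theorem ptime_rVal' {D : α → ℕ} {s : α → Vec} {V : α → Mat} {j : α → ℕ} (hD : PTime D)
    (hs : PTime s) (hV : PTime V) (hj : PTime j) :
    PTime (fun a => rVal (D a) (s a) (V a) (j a)) :=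
  ptime_rVal.comp (f := fun a => (D a, s a, V a, j a)) (by fun_prop)

@[local fun_prop] theorem ptime_rMax {D : α → ℕ} {s : α → Vec} {V : α → Mat} (hD : PTime D)
    (hs : PTime s) (hV : PTime V) : PTime (fun a => rMax (D a) (s a) (V a)) := by
  unfold rMax
  refine PTime.getD (PTime.head? (PTime.filter (PTime.range (by fun_prop)) ?_)) (PTime.const 0)
  exact PTime.all (PTime.range (by fun_prop)) (by fun_prop)

@[local fun_prop] theorem ptime_rNum {D : α → ℕ} {s : α → Vec} {V : α → Mat} {j : α → ℕ} (hD : PTime D)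
    (hs : PTime s) (hV : PTime V) (hj : PTime j) :
    PTime (fun a => rNum (D a) (s a) (V a) (j a)) := by
  unfold rNum
  fun_prop

theorem ptime_rCut {D a : α → ℕ} {n : α → ℕ → ℚ} {st : α → RS} (hD : PTime D) (ha : PTime a)
    (hn : PTime fun p : α × ℕ => n p.1 p.2) (hst : PTime st) :
    PTime (fun x => rCut (D x) (a x) (n x) (st x)) := by
  unfold rCut
  have hn1 : PTime (fun p : (α × ℕ) × ℕ => n p.1.1 p.1.2) :=
    hn.comp (f := fun p : (α × ℕ) × ℕ => (p.1.1, p.1.2)) (by fun_prop)
  refine PTime.pair (P91.tabM' (by fun_prop) (by fun_prop) ?_)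
    (PTime.pair (P91.tabM' (by fun_prop) (by fun_prop) ?_) (by fun_prop))
  · refine PTime.ite (by fun_prop) (by fun_prop) (P45.add (by fun_prop)
      (P45.mul (P45.div (by fun_prop) (P45.sub (by fun_prop) hn1)) (by fun_prop)))
  · refine PTime.ite (by fun_prop) (P45.add (by fun_prop) ?_)
      (P45.mul (P45.sub (by fun_prop) hn1) (by fun_prop))
    simp_rw [Finset.sum_filter]
    refine P91.sumRange (by fun_prop) (PTime.ite (by fun_prop) (P45.mul ?_ (by fun_prop))
      (by fun_prop))
    exact hn.comp (f := fun p : ((α × ℕ) × ℕ) × ℕ => (p.1.1.1, p.2)) (by fun_prop)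

end

attribute [local fun_prop] P45.add P45.mul P45.neg P45.sub P45.div P45.le P45.lt P45.castInt
  P45.castNat P45.pow P45.fn' P45.ent' P91.qfloor P91.qceilQ P91.qmax P91.RD' ptime_rMax
  ptime_rNum ptime_rVal'

/-- RPT1: the step is polynomial time. -/
theorem rpt1_thm (h1 : S_QOP) (h2 : S_QSUM) : S_RPT1 := by
  have : Fact QOps := ⟨h1⟩
  have : Fact QSums := ⟨h2⟩
  intro α _ O hO
  have hfind : PTime (fun p : (α × ℕ) × RS => rFind p.1.2 (O p.1.1) p.2.1) := by
    unfold rFind
    refine PTime.head? (PTime.filterMap (PTime.range (by fun_prop)) ?_)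
    have h1 : PTime (fun q : ((α × ℕ) × RS) × ℕ => (q.1.1.1, rShr q.1.1.2 q.1.2.1 q.2)) :=
      PTime.pair (by fun_prop) (ptime_rShr.comp
        (f := fun q : ((α × ℕ) × RS) × ℕ => (q.1.1.2, q.1.2.1, q.2)) (by fun_prop))
    exact hO.comp h1
  have h : PTime (fun p : (α × ℕ) × RS => Option.casesOn (motive := fun _ => RS)
      (rFind p.1.2 (O p.1.1) p.2.1) p.2
      (fun s => rCut p.1.2 (rMax p.1.2 s p.2.1) (rNum p.1.2 s p.2.1) p.2)) := by
    refine PTime.optCases hfind (by fun_prop) ?_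
    exact ptime_rCut (by fun_prop) (by fun_prop) (by fun_prop) (by fun_prop)
  refine h.congr fun p => ?_
  unfold rStep
  cases rFind p.1.2 (O p.1.1) p.2.1 <;> rfl

end Pool.HMS
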