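import Pool.Agent.H91.HMS.RAsm
import Pool.Agent.H91.HMS.RPT1
import Pool.Agent.H62.HMS.RCMP
import Pool.Agent.H62.HMS.RDETB
import Pool.Agent.H62.HMS.RLAT
import Pool.Agent.H62.HMS.RPT2
import Pool.Agent.H62.HMS.RSZB
import Pool.Agent.H7.HMS.RCUT
import Pool.Agent.H7.HMS.RDET
import Pool.Agent.H7.HMS.RPT4
import Pool.Agent.H29.HMS.RFLAT
import Pool.Agent.H29.HMS.RINNER
import Pool.Agent.H34.HMS.RGROW
import Pool.Agent.H34.HMS.RTIME
import Pool.Agent.H83.HMS.RINIT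
import Pool.Agent.H83.HMS.RMAX
import Pool.Agent.H83.HMS.RPROD
import Pool.Agent.H83.HMS.RSZ0
import Pool.Agent.H83.HMS.RPT3
import Pool.Agent.H81.HMS.RLOOP
import Pool.Agent.H33.HMS.RNUM
import Pool.Agent.H33.HMS.RVALID
import Pool.Agent.H92.HMS.RSZ1
import Pool.Agent.H92.HMS.RTHICK

/-!
# HMS box 2 (ROUND): all modules together
-/

set_option autoImplicit false

namespace Pool.HMS

theorem s_round_of (hq : S_QOP) (hs : S_QSUM) (hpt3 : S_RPT3) : S_LLL → S_ROUND :=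
  round_of rcmp_thm rgrow_thm rtime_thm
    (rloop_thm rmax_thm (rnum_thm rmax_thm) rprod_thm (rvalid_thm rmax_thm (rnum_thm rmax_thm))
      rcut_thm rdet_thm rinit_thm)
    rsz0_thm rsz1_thm rmax_thm (rnum_thm rmax_thm) rinner_thm rlat_thm rthick_thm rflat_thm
    rdetb_thm hpt3
    (rpt4_thm (rpt1_thm hq hs) (rpt2_thm hq) rsz0_thm rsz1_thm rszb_thm (rnum_thm rmax_thm)
      rmax_thm)

/-- Box 2 from box 1. -/
theorem s_round (hq : S_QOP) (hs : S_QSUM) (hlll : S_LLL) : S_ROUND :=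
  s_round_of hq hs (rpt3_thm hq hs) hlll

end Pool.HMS
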