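import Mathlib

set_option autoImplicit false

/-!
# HMS, Lemma 1 (deep vectors are integral sums)

`A` is the set of lattice points of a convex set `P` in dimension `e`, `InCone A v t` says that
`(v, t)` is in the cone generated by the vectors `(x, 1)`, `x ∈ A`, and `IntSum A y M` that
`(y, M)` is a sum of such vectors.
-/

namespace Pool.HMS.LQ

open Finset

/-- the lattice vector `x` as a rational vector -/
def toQ {e : ℕ} (x : Fin e → ℤ) : Fin e → ℚ := fun i => (x i : ℚ)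

/-- the lattice points of `P` -/
def latt {e : ℕ} (P : Set (Fin e → ℚ)) : Set (Fin e → ℤ) := {x | toQ x ∈ P}

/-- `(v, t)` is in the cone generated by the `(x, 1)`, `x ∈ A` -/
def InCone {e : ℕ} (A : Set (Fin e → ℤ)) (v : Fin e → ℚ) (t : ℚ) : Prop :=
  ∃ (s : Finset (Fin e → ℤ)) (c : (Fin e → ℤ) → ℚ), (∀ x ∈ s, x ∈ A) ∧ (∀ x ∈ s, 0 ≤ c x) ∧
    v = ∑ x ∈ s, c x • toQ x ∧ t = ∑ x ∈ s, c x

/-- `(y, M)` is a sum of finitely many `(x, 1)`, `x ∈ A` -/
def IntSum {e : ℕ} (A : Set (Fin e → ℤ)) (y : Fin e → ℤ) (M : ℤ) : Prop :=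
  ∃ s : Multiset (Fin e → ℤ), (∀ x ∈ s, x ∈ A) ∧ s.sum = y ∧ (Multiset.card s : ℤ) = M

@[simp] theorem toQ_zero {e : ℕ} : toQ (0 : Fin e → ℤ) = 0 := by
  ext i; simp [toQ]

theorem toQ_add {e : ℕ} (x y : Fin e → ℤ) : toQ (x + y) = toQ x + toQ y := by
  ext i; simp [toQ]

theorem toQ_sub {e : ℕ} (x y : Fin e → ℤ) : toQ (x - y) = toQ x - toQ y := by
  ext i; simp [toQ]

theorem toQ_zsmul {e : ℕ} (k : ℤ) (x : Fin e → ℤ) : toQ (k • x) = (k : ℚ) • toQ x := by
  ext i; simp [toQ]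

theorem toQ_nsmul {e : ℕ} (k : ℕ) (x : Fin e → ℤ) : toQ (k • x) = (k : ℚ) • toQ x := by
  ext i; simp [toQ]

theorem toQ_sum {e : ℕ} {ι : Type*} (s : Finset ι) (f : ι → Fin e → ℤ) :
    toQ (∑ j ∈ s, f j) = ∑ j ∈ s, toQ (f j) := by
  ext i; simp [toQ, Finset.sum_apply]

/-- Caratheodory for `InCone`. -/
theorem InCone.caratheodory {e : ℕ} {A : Set (Fin e → ℤ)} {v : Fin e → ℚ} {t : ℚ}
    (h : InCone A v t) :
    ∃ (ι : Type) (_ : Fintype ι) (a : ι → Fin e → ℤ) (l : ι → ℚ), Fintype.card ι ≤ e + 1 ∧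
      (∀ i, a i ∈ A) ∧ (∀ i, 0 ≤ l i) ∧ v = ∑ i, l i • toQ (a i) ∧ t = ∑ i, l i := by
  classical
  obtain ⟨s, c, hsA, hc, hv, ht⟩ := h
  have ht0 : 0 ≤ t := by rw [ht]; exact Finset.sum_nonneg hc
  rcases eq_or_lt_of_le ht0 with h0 | hpos
  · refine ⟨Empty, inferInstance, fun i => i.elim, fun i => i.elim, by simp, fun i => i.elim,
      fun i => i.elim, ?_, ?_⟩
    · have hz : ∀ x ∈ s, c x = 0 := by
        intro x hx
        exact (Finset.sum_eq_zero_iff_of_nonneg hc).mp (ht.symm.trans h0.symm) x hx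
      rw [hv]
      simp only [Finset.univ_eq_empty, Finset.sum_empty]
      exact Finset.sum_eq_zero fun x hx => by rw [hz x hx, zero_smul]
    · simp [← h0]
  · have hmem : t⁻¹ • v ∈ convexHull ℚ (toQ '' A) := by
      have h1 : t⁻¹ • v = ∑ x ∈ s, (t⁻¹ * c x) • toQ x := by
        rw [hv, Finset.smul_sum]
        exact Finset.sum_congr rfl fun x _ => by rw [smul_smul]
      rw [h1]
      refine Convex.sum_mem (convex_convexHull ℚ _) ?_ ?_ ?_
      · intro x hx; exact mul_nonneg (inv_nonneg.mpr hpos.le) (hc x hx)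
      · rw [← Finset.mul_sum, ← ht, inv_mul_cancel₀ hpos.ne']
      · intro x hx; exact subset_convexHull ℚ _ ⟨x, hsA x hx, rfl⟩
    obtain ⟨ι, hι, z, w, hz, hind, hw, hw1, hsum⟩ := eq_pos_convex_span_of_mem_convexHull hmem
    have hz' : ∀ i, ∃ a ∈ A, toQ a = z i := fun i => hz ⟨i, rfl⟩
    choose a haA haz using hz'
    refine ⟨ι, hι, a, fun i => t * w i, ?_, haA, fun i => mul_nonneg hpos.le (hw i).le, ?_, ?_⟩
    · have := hind.card_le_finrank_succ
      refine this.trans ?_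
      have h2 : Module.finrank ℚ (vectorSpan ℚ (Set.range z)) ≤ e := by
        refine (Submodule.finrank_le _).trans ?_
        simp
      omega
    · have : v = t • (t⁻¹ • v) := by rw [smul_smul, mul_inv_cancel₀ hpos.ne', one_smul]
      rw [this, ← hsum, Finset.smul_sum]
      refine Finset.sum_congr rfl fun i _ => ?_
      rw [smul_smul, haz]
    · rw [← Finset.mul_sum, hw1, mul_one]

/-- **Lemma 1 (deep vectors are integral sums).** -/
theorem deep_intSum {e : ℕ} (P : Set (Fin e → ℚ)) (hP : Convex ℚ P)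
    (y : Fin e → ℤ) (M : ℤ) (R ρ : ℚ) (hR : 0 < R)
    (G : Fin (e + 1) → Fin e → ℚ) (c0 : Fin (e + 1) → ℚ)
    (g : Fin e → ℤ) (hgj : ∀ j, 1 / ((e : ℚ) + 1) - ρ ≤ c0 j + G j ⬝ᵥ toQ g)
    (hthick : ∀ x : Fin e → ℚ, (∀ j, (1 - 1 / R) / ((e : ℚ) + 1) ≤ c0 j + G j ⬝ᵥ x) →
      x ∈ P ∧ InCone (latt P) (toQ y - ((e : ℚ) + 1) • x) ((M : ℚ) - ((e : ℚ) + 1)))
    (hround : ∀ v : Fin e → ℚ, ∃ u : Fin e → ℤ, ∀ j, |G j ⬝ᵥ (v - toQ u)| ≤ ρ)
    (hρ : 5 * ρ ≤ 1 / (R * ((e : ℚ) + 1))) : IntSum (latt P) y M := by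
  classical
  have he : (0 : ℚ) < (e : ℚ) + 1 := by positivity
  have hρ0 : 0 ≤ ρ := by
    obtain ⟨u, hu⟩ := hround 0
    exact (abs_nonneg _).trans (hu 0)
  have hthr : (1 - 1 / R) / ((e : ℚ) + 1) ≤ 1 / ((e : ℚ) + 1) - 5 * ρ := by
    have : (1 - 1 / R) / ((e : ℚ) + 1) = 1 / ((e : ℚ) + 1) - 1 / (R * ((e : ℚ) + 1)) := by
      field_simp
    rw [this]; linarith
  obtain ⟨hgP, hgC⟩ := hthick (toQ g) fun j => hthr.trans (by linarith [hgj j])
  obtain ⟨ι, hι, a, l, hcard, haA, hl, hv, ht⟩ := hgC.caratheodory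
  -- floors
  set f : ι → ℕ := fun i => ⌊l i⌋₊ with hf
  set W : Fin e → ℤ := y - (e + 1) • g - ∑ i, f i • a i with hW
  set m : ℤ := M - (e + 1) - ∑ i, (f i : ℤ) with hm
  have hfr0 : ∀ i, 0 ≤ l i - f i := fun i => sub_nonneg.mpr (Nat.floor_le (hl i))
  have hfr1 : ∀ i, l i - f i < 1 := fun i => by
    have := Nat.lt_floor_add_one (l i)
    simp only [hf]; linarith
  have hWR : toQ W = ∑ i, (l i - f i) • toQ (a i) := by
    rw [hW, toQ_sub, toQ_sub, toQ_sum, toQ_nsmul]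
    simp_rw [sub_smul, Finset.sum_sub_distrib, toQ_nsmul]
    rw [← hv]
    push_cast
    rfl
  have hmR : (m : ℚ) = ∑ i, (l i - f i) := by
    rw [hm, Finset.sum_sub_distrib, ← ht]
    push_cast
    ring
  have hm0 : 0 ≤ m := by
    have : (0 : ℚ) ≤ (m : ℚ) := by rw [hmR]; exact Finset.sum_nonneg fun i _ => hfr0 i
    exact_mod_cast this
  have hme : m ≤ e := by
    have h1 : (m : ℚ) < (e : ℚ) + 1 := by
      rw [hmR]
      rcases isEmpty_or_nonempty ι with h | h
      · simp only [Finset.univ_eq_empty, Finset.sum_empty]; exact he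
      · calc ∑ i, (l i - f i) < ∑ _i : ι, (1 : ℚ) :=
              Finset.sum_lt_sum_of_nonempty Finset.univ_nonempty fun i _ => hfr1 i
          _ = (Fintype.card ι : ℚ) := by simp
          _ ≤ (e : ℚ) + 1 := by exact_mod_cast hcard
    have h2 : m < (e : ℤ) + 1 := by exact_mod_cast h1
    omega
  obtain ⟨k, hk⟩ := Int.eq_ofNat_of_zero_le hm0
  have hke : k ≤ e := by omega
  set N : ℕ := k + e + 1 with hN
  have hNpos : (0 : ℚ) < (N : ℚ) := by rw [hN]; positivity
  have hNR : (N : ℚ) = (k : ℚ) + ((e : ℚ) + 1) := by rw [hN]; push_cast; ring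
  have hN2 : (N : ℚ) ≤ 2 * ((e : ℚ) + 1) := by
    rw [hNR]
    have : (k : ℚ) ≤ (e : ℚ) := by exact_mod_cast hke
    linarith
  have hmk : (m : ℚ) = (k : ℚ) := by rw [hk]; simp
  set b : Fin e → ℚ := (N : ℚ)⁻¹ • (toQ W + ((e : ℚ) + 1) • toQ g) with hb
  have hround' : ∀ i : ℕ, ∃ u : Fin e → ℤ, (∀ j, |G j ⬝ᵥ ((i : ℚ) • b - toQ u)| ≤ ρ) ∧
      (i = 0 → u = 0) ∧ (i = N → u = W + (e + 1) • g) := by
    intro i
    by_cases h0 : i = 0
    · refine ⟨0, fun j => ?_, fun _ => rfl, fun h => ?_⟩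
      · simp [h0, hρ0]
      · exfalso; omega
    · by_cases h1 : i = N
      · refine ⟨W + (e + 1) • g, fun j => ?_, fun h => absurd h h0, fun _ => rfl⟩
        have : (i : ℚ) • b = toQ (W + (e + 1) • g) := by
          rw [h1, hb, smul_smul, mul_inv_cancel₀ hNpos.ne', one_smul, toQ_add, toQ_nsmul]
          push_cast
          rfl
        rw [this, sub_self, dotProduct_zero, abs_zero]
        exact hρ0
      · obtain ⟨u, hu⟩ := hround ((i : ℚ) • b)
        exact ⟨u, hu, fun h => absurd h h0, fun h => absurd h h1⟩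
  choose u hu hu0 huN using hround'
  -- the points
  have hpP : ∀ i : ℕ, (u (i + 1) - u i) ∈ latt P := by
    intro i
    change toQ (u (i + 1) - u i) ∈ P
    set δ : Fin e → ℚ := toQ (u (i + 1) - u i) - b with hδ
    have hδj : ∀ j, |G j ⬝ᵥ δ| ≤ 2 * ρ := by
      intro j
      have h1 : δ = ((i : ℚ) • b - toQ (u i)) - (((i + 1 : ℕ) : ℚ) • b - toQ (u (i + 1))) := by
        rw [hδ, toQ_sub]
        push_cast
        rw [add_smul, one_smul]
        abel
      rw [h1, dotProduct_sub]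
      have h2 := hu i j
      have h3 := hu (i + 1) j
      calc _ ≤ |G j ⬝ᵥ ((i : ℚ) • b - toQ (u i))| +
            |G j ⬝ᵥ (((i + 1 : ℕ) : ℚ) • b - toQ (u (i + 1)))| := abs_sub _ _
        _ ≤ 2 * ρ := by linarith
    have hx1 : toQ g + ((N : ℚ) / ((e : ℚ) + 1)) • δ ∈ P := by
      refine (hthick _ fun j => ?_).1
      rw [dotProduct_add, dotProduct_smul, smul_eq_mul]
      have h1 := hgj j
      have h2 := (abs_le.mp (hδj j)).1
      have h3 : (N : ℚ) / ((e : ℚ) + 1) ≤ 2 := by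
        rw [div_le_iff₀ he]; exact hN2
      have h4 : 0 ≤ (N : ℚ) / ((e : ℚ) + 1) := by positivity
      have h5 : -(4 * ρ) ≤ (N : ℚ) / ((e : ℚ) + 1) * (G j ⬝ᵥ δ) := by
        calc -(4 * ρ) = 2 * (-(2 * ρ)) := by ring
          _ ≤ (N : ℚ) / ((e : ℚ) + 1) * (-(2 * ρ)) :=
              mul_le_mul_of_nonpos_right h3 (by linarith)
          _ ≤ _ := mul_le_mul_of_nonneg_left h2 h4
      linarith
    have hmain : toQ (u (i + 1) - u i) =
        (((e : ℚ) + 1) / N) • (toQ g + ((N : ℚ) / ((e : ℚ) + 1)) • δ) +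
          (N : ℚ)⁻¹ • toQ W := by
      have h1 : toQ (u (i + 1) - u i) = b + δ := by rw [hδ]; abel
      rw [h1, smul_add, smul_smul]
      have h2 : ((e : ℚ) + 1) / N * ((N : ℚ) / ((e : ℚ) + 1)) = 1 := by field_simp
      rw [h2, one_smul, hb, smul_add, smul_smul]
      have h3 : (N : ℚ)⁻¹ * ((e : ℚ) + 1) = ((e : ℚ) + 1) / N := by ring
      rw [h3]
      abel
    rcases Nat.eq_zero_or_pos k with h0 | hkp
    · -- `m = 0`
      have hfz : ∀ i, l i - f i = 0 := by
        have h1 : ∑ i, (l i - f i) = 0 := by rw [← hmR, hmk, h0]; simp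
        intro i
        exact (Finset.sum_eq_zero_iff_of_nonneg fun i _ => hfr0 i).mp h1 i (Finset.mem_univ _)
      have hW0 : toQ W = 0 := by
        rw [hWR]; exact Finset.sum_eq_zero fun i _ => by rw [hfz i, zero_smul]
      have hNe : (N : ℚ) = (e : ℚ) + 1 := by rw [hNR, h0]; simp
      rw [hmain, hW0, smul_zero, add_zero]
      have : ((e : ℚ) + 1) / N = 1 := by rw [hNe]; exact div_self he.ne'
      rw [this, one_smul]
      exact hx1
    · have hkR : (0 : ℚ) < (k : ℚ) := by exact_mod_cast hkp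
      have hWm : (k : ℚ)⁻¹ • toQ W ∈ P := by
        have h1 : (k : ℚ)⁻¹ • toQ W = ∑ i, ((k : ℚ)⁻¹ * (l i - f i)) • toQ (a i) := by
          rw [hWR, Finset.smul_sum]
          exact Finset.sum_congr rfl fun i _ => by rw [smul_smul]
        rw [h1]
        refine hP.sum_mem ?_ ?_ ?_
        · intro i _; exact mul_nonneg (inv_nonneg.mpr hkR.le) (hfr0 i)
        · rw [← Finset.mul_sum, ← hmR, hmk, inv_mul_cancel₀ hkR.ne']
        · intro i _; exact haA i
      have h2 : (N : ℚ)⁻¹ • toQ W = ((k : ℚ) / N) • ((k : ℚ)⁻¹ • toQ W) := by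
        rw [smul_smul]
        congr 1
        field_simp
      rw [hmain, h2]
      refine hP hx1 hWm (by positivity) (by positivity) ?_
      rw [← add_div, div_eq_one_iff_eq hNpos.ne', hNR]
      ring
  refine ⟨(∑ i, Multiset.replicate (f i) (a i)) +
    (Multiset.range N).map (fun i => u (i + 1) - u i), ?_, ?_, ?_⟩
  · intro x hx
    rw [Multiset.mem_add] at hx
    rcases hx with hx | hx
    · rw [Multiset.mem_sum] at hx
      obtain ⟨i, _, hi⟩ := hx
      rw [Multiset.eq_of_mem_replicate hi]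
      exact haA i
    · obtain ⟨i, _, rfl⟩ := Multiset.mem_map.mp hx
      exact hpP i
  · rw [Multiset.sum_add]
    have h1 : (∑ i, Multiset.replicate (f i) (a i)).sum = ∑ i, f i • a i := by
      rw [Multiset.sum_sum]
      exact Finset.sum_congr rfl fun i _ => Multiset.sum_replicate _ _
    have h2 : ((Multiset.range N).map (fun i => u (i + 1) - u i)).sum = u N - u 0 := by
      have := Finset.sum_range_sub u N
      rw [← this]
      rfl
    rw [h1, h2, hu0 0 rfl, huN N rfl, hW]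
    abel
  · rw [Multiset.card_add, Multiset.card_map, Multiset.card_range]
    have h1 : Multiset.card (∑ i, Multiset.replicate (f i) (a i)) = ∑ i, f i := by
      rw [Multiset.card_sum]
      exact Finset.sum_congr rfl fun i _ => Multiset.card_replicate _ _
    rw [h1, hN]
    push_cast
    rw [← Int.ofNat_eq_natCast k] at *
    omega

end Pool.HMS.LQ
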