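import Pool.Agent.H91.HMS.RLib

/-!
# HMS box 2 (ROUND): assembly
-/

set_option autoImplicit false

namespace Pool.HMS

open TMLib Finset

theorem RSz.mono {D P Q M P' Q' M' : ℕ} {st : RS} (h : RSz D P Q M st) (hP : P ≤ P') (hQ : Q ≤ Q')
    (hM : M ≤ M') : RSz D P' Q' M' st := by
  have hMc : (M : ℚ) ≤ M' := by exact_mod_cast hM
  obtain ⟨d, hd, hdP, hdI⟩ := h.denV
  obtain ⟨e, he, heQ, heI, heS⟩ := h.denG
  exact ⟨h.lenV, h.rowV, h.lenG, h.rowG, ⟨d, hd, hdP.trans hP, hdI⟩,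
    ⟨e, he, heQ.trans hQ, heI, heS⟩, fun i j => (h.boundV i j).trans hMc,
    fun i j => (h.boundG i j).trans hMc, h.boundS.trans hMc⟩

/-- Sizes along the loop (for every oracle). -/
theorem rsz_loop (h0 : S_RSZ0) (h1 : S_RSZ1) (hm : S_RMAX) (hn : S_RNUM)
    (D : ℕ) (B : ℚ) (O : Vec → Option Vec) (t : ℕ) :
    RSz D (B.den * ((20 * D ^ 3 + 1) ^ D) ^ t) B.den
      ((2 * D + 1) * (B.num.natAbs + 1) * (20 * D ^ 3 + 4) ^ t)
      ((rStep D O)^[t] (rInit D B)) := by
  induction t with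
  | zero => simpa using h0 D B
  | succ t ih =>
    rw [Function.iterate_succ_apply']
    set st := (rStep D O)^[t] (rInit D B) with hst
    unfold rStep
    cases hf : rFind D O st.1 with
    | none =>
      refine ih.mono ?_ le_rfl ?_
      · exact Nat.mul_le_mul_left _ (Nat.pow_le_pow_right (pow_pos (Nat.succ_pos _) _)
          (Nat.le_succ t))
      · exact Nat.mul_le_mul_left _ (Nat.pow_le_pow_right (Nat.add_pos_right _ (by norm_num))
          (Nat.le_succ t))
    | some s =>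
      have := h1 D (rMax D s st.1) _ _ _ (rNum D s st.1) st (hm D s st.1).1 ih
        (fun j hj => ⟨(hn.1 D s st.1 j).1, (hn.1 D s st.1 j).2.1, (hn.1 D s st.1 j).2.2 hj⟩)
      refine this.mono (le_of_eq ?_) le_rfl (le_of_eq ?_)
      · rw [pow_succ]; ring
      · rw [pow_succ]; ring

/-- RASM: assembly of box 2. -/
theorem round_of (hcmp : S_RCMP) (hgrow : S_RGROW) (htime : S_RTIME) (hloop : S_RLOOP)
    (hsz0 : S_RSZ0) (hsz1 : S_RSZ1) (hmax : S_RMAX) (hnum : S_RNUM)
    (hinner : S_RINNER) (hlat : S_RLAT) (hthick : S_RTHICK) (hflat : S_RFLAT) (hdetb : S_RDETB)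
    (hpt3 : S_RPT3) (hpt4 : S_RPT4) : S_LLL → S_ROUND := by
  rintro ⟨lll, hlllP, hlll⟩
  refine ⟨fun D => 2 * wdh D + 1, crD, hcmp.2, hcmp.1, ?_⟩
  intro α _ O hO
  refine ⟨rAlg lll O, ?_, ?_⟩
  · have h1 := hpt4 α O hO
    have h2 := hpt3 lll hlllP
    exact h2.comp (PTime.pair (PTime.fst (PTime.snd PTime.id)) h1)
  intro a D B K hD hBI hB hK hbox hor
  have hD' : (1 : ℚ) ≤ D := by exact_mod_cast hD
  have hsuppK : ∀ x ∈ K, Supp D x := fun x hx => (hbox x hx).1
  obtain ⟨hinv, hdisj⟩ := hloop D B K (O a) hD hBI hB hK hbox hor (rT D B)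
  have hsz := rsz_loop hsz0 hsz1 hmax hnum D B (O a) (rT D B)
  obtain ⟨X, hX1, hXM, hg1, hg2⟩ := hgrow D B hD hBI hB
  set st := (rStep D (O a))^[rT D B] (rInit D B) with hst
  obtain ⟨hintM, hhpos, hinj⟩ := hlat D K st hD hinv
  have hMX : ∀ i j, |ent (rMat D st) i j| ≤ X := by
    intro i j
    unfold rMat
    rw [ent_tabM]
    split_ifs with h
    · exact (hsz.boundG _ _).trans hXM
    · rw [abs_zero]; linarith
  have hVX : ∀ i j, |ent st.1 i j| ≤ X := fun i j => (hsz.boundV i j).trans hXM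
  have hout := hlll D D (rMat D st) (st.2.2 ^ 2 * h0 D) X hD hintM hX1 hMX hinj hhpos
  set r := lll (D, D, rMat D st, st.2.2 ^ 2 * h0 D) with hr
  have hB1 : (1 : ℚ) ≤ B := by linarith
  have hgrU : ∀ i j, |ent r.2.1 i j| ≤ B ^ crD D ∧ |ent r.2.2 i j| ≤ B ^ crD D := by
    intro i j
    have h1 := hout.growth i j
    exact ⟨h1.1.trans hg1, h1.2.trans hg1⟩
  have hrKI : IsI (rK D st.1 r.2.2) := ⟨_, rfl⟩
  -- bound for `rK`
  have hrKb : |rK D st.1 r.2.2| ≤ D * ((D * D * X + 2) ^ (4 * D + 4) * X) + 1 := by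
    have h1 : |∑ c ∈ range D, ent r.2.2 (D - 1) c * ent st.1 0 c| ≤
        D * ((D * D * X + 2) ^ (4 * D + 4) * X) := by
      refine (Finset.abs_sum_le_sum_abs _ _).trans ?_
      have h2 : ∀ c ∈ range D, |ent r.2.2 (D - 1) c * ent st.1 0 c| ≤
          (D * D * X + 2) ^ (4 * D + 4) * X := by
        intro c _
        rw [abs_mul]
        exact mul_le_mul (hout.growth _ _).2 (hVX _ _) (abs_nonneg _)
          ((abs_nonneg _).trans (hout.growth (D - 1) c).2)
      refine (Finset.sum_le_sum h2).trans (le_of_eq ?_)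
      rw [Finset.sum_const, Finset.card_range, nsmul_eq_mul]
    unfold rK
    have h3 := Int.floor_le (∑ c ∈ range D, ent r.2.2 (D - 1) c * ent st.1 0 c)
    have h4 := Int.lt_floor_add_one (∑ c ∈ range D, ent r.2.2 (D - 1) c * ent st.1 0 c)
    have h5 := abs_le.1 h1
    rw [abs_le]
    constructor <;> linarith
  have hres : rAlg lll O (a, D, B) = ((!r.1, rZ D st.1 r.2.1 r.2.2), (r.2.1, r.2.2),
      (rK D st.1 r.2.2 - wdh D, rK D st.1 r.2.2 + 1 + wdh D)) := rfl
  rw [hres]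
  -- the two cases
  refine ⟨?_, fun _ => hout.uni, fun _ => hgrU, fun _ => hrKI.sub (IsI.nat _),
    fun _ => (hrKI.add IsI.one).add (IsI.nat _), fun _ => ?_, fun _ => ?_, fun hf => ?_⟩
  · intro hth
    have hfl : r.1 = false := by simpa using hth
    rw [hfl] at hout
    have hd1 := hdetb D K st X r.2.1 r.2.2 hD hinv hout
    have hin : ∀ b ≤ D, fn (rShr D st.1 b) ∈ K := by
      rcases hdisj with h | h
      · exact h
      · exfalso
        have h2 := htime D B hD hBI hB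
        have h3 : 1 < rdet D st := lt_of_lt_of_le h2 h
        nlinarith
    exact hthick D K st X r.2.1 r.2.2 hD hinv hout (hinner D K st hD hinv hK hin)
  · have hw : (0 : ℚ) ≤ (wdh D : ℚ) := by positivity
    have h1 := abs_le.1 hrKb
    constructor
    · rw [abs_le]
      constructor <;> simp only <;> linarith
    · rw [abs_le]
      constructor <;> simp only <;> linarith
  · push_cast
    linarith
  · have hfl : r.1 = true := by simpa using hf
    rw [hfl] at hout
    intro x hx _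
    exact hflat D K st X r.2.1 r.2.2 hD hinv hsuppK hout x hx

end Pool.HMS
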