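import Pool.Agent.H76.HMS.Base

/-!
# HMS box 2 (ROUND): the algorithm and the statements of the modules

The cut loop keeps a simplex containing `K`: vertices `V` (rows `j ≤ D`, entries `i < D`), scaled
barycentric functionals `G` (integral rows `j ≤ D`, constant term first, entries `i ≤ D`) and the
scale `S`: the true functionals are `g_j = aff D (G_j) / S`.
-/

set_option autoImplicit false

namespace Pool.HMS

open TMLib Finset

/-- tabulation of a matrix -/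
def tabM (n m : ℕ) (f : ℕ → ℕ → ℚ) : Mat := (List.range n).map fun i => tab m (f i)

/-- State of the cut loop: vertices, scaled functionals, scale. -/
abbrev RS := Mat × Mat × ℚ

/-- Initial simplex, containing the box `[-B, B]^D`. -/
def rInit (D : ℕ) (B : ℚ) : RS :=
  (tabM (D + 1) D fun j i => if j = i + 1 then 2 * D * B - B else -B,
    tabM (D + 1) (D + 1) fun j i =>
      if j = 0 then (if i = 0 then D * B else -1) else (if i = 0 then B else if i = j then 1 else 0),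
    2 * D * B)

/-- Shrunk vertex number `b`. -/
def rShr (D : ℕ) (V : Mat) (b : ℕ) : Vec :=
  tab D fun i => (1 - 1 / RD D) / (D + 1) * (∑ j ∈ range (D + 1), ent V j i) + 1 / RD D * ent V b i

/-- A violated cut at some shrunk vertex. -/
def rFind (D : ℕ) (O : Vec → Option Vec) (V : Mat) : Option Vec :=
  ((List.range (D + 1)).filterMap fun b => O (rShr D V b)).head?

/-- Value of the cut at vertex `j`. -/
def rVal (D : ℕ) (s : Vec) (V : Mat) (j : ℕ) : ℚ := aff D (fn s) (ent V j)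

/-- The vertex with the largest value. -/
def rMax (D : ℕ) (s : Vec) (V : Mat) : ℕ :=
  (((List.range (D + 1)).filter fun j =>
    (List.range (D + 1)).all fun i => decide (rVal D s V i ≤ rVal D s V j)).head?).getD 0

/-- The rounded and truncated numbers of the cut. -/
def rNum (D : ℕ) (s : Vec) (V : Mat) (j : ℕ) : ℚ :=
  if rVal D s V (rMax D s V) ≤ 0 then (if rVal D s V j < 0 then -(4 * D ^ 2) else 4 * D)
  else ((⌈4 * (D : ℚ) * max (rVal D s V j / rVal D s V (rMax D s V)) (-D)⌉ : ℤ) : ℚ)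

/-- One cut with apex `a` and numbers `n`. -/
def rCut (D a : ℕ) (n : ℕ → ℚ) (st : RS) : RS :=
  (tabM (D + 1) D fun j i => if j = a then ent st.1 a i else
      ent st.1 a i + 16 * D ^ 3 / (16 * D ^ 3 - n j) * (ent st.1 j i - ent st.1 a i),
    tabM (D + 1) (D + 1) fun j i => if j = a then
        16 * D ^ 3 * ent st.2.1 a i + ∑ k ∈ (range (D + 1)).filter (· ≠ a), n k * ent st.2.1 k i
      else (16 * D ^ 3 - n j) * ent st.2.1 j i,
    16 * D ^ 3 * st.2.2)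

/-- One step of the loop. -/
def rStep (D : ℕ) (O : Vec → Option Vec) (st : RS) : RS :=
  match rFind D O st.1 with
  | none => st
  | some s => rCut D (rMax D s st.1) (rNum D s st.1) st

/-- Number of steps. -/
def rT (D : ℕ) (B : ℚ) : ℕ := 16 * D ^ 3 * (D + B.num.natAbs.size)

/-- Threshold for the lattice reduction. -/
def h0 (D : ℕ) : ℚ := (rhoD D / D ^ 2) ^ 2 / (D * 2 ^ (D - 1))

/-- Half width of flat directions. -/
def wdh (D : ℕ) : ℕ := 5 * 2 ^ D * D ^ 3 * (8 * D ^ 3 + 1) * (D + 1)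

/-- The matrix given to the lattice reduction (row `c`: image of the `c`-th unit vector). -/
def rMat (D : ℕ) (st : RS) : Mat := tabM D D fun c k => ent st.2.1 (k + 1) (c + 1)

/-- The rounded centroid. -/
def rZ (D : ℕ) (V U W : Mat) : Vec :=
  tab D fun c => ∑ i ∈ range D, ((⌊(∑ c' ∈ range D, ent W i c' *
    ((∑ j ∈ range (D + 1), ent V j c') / (D + 1))) + 1 / 2⌋ : ℤ) : ℚ) * ent U i c

/-- Last coordinate of vertex `0`, rounded down. -/
def rK (D : ℕ) (V W : Mat) : ℚ := ((⌊∑ c ∈ range D, ent W (D - 1) c * ent V 0 c⌋ : ℤ) : ℚ)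

/-- Output from the final state. -/
def rOut (lll : ℕ × ℕ × Mat × ℚ → Bool × Mat × Mat) (D : ℕ) (st : RS) :
    (Bool × Vec) × (Mat × Mat) × (ℚ × ℚ) :=
  let r := lll (D, D, rMat D st, st.2.2 ^ 2 * h0 D)
  ((!r.1, rZ D st.1 r.2.1 r.2.2), (r.2.1, r.2.2),
    (rK D st.1 r.2.2 - wdh D, rK D st.1 r.2.2 + 1 + wdh D))

/-- The algorithm. -/
def rAlg (lll : ℕ × ℕ × Mat × ℚ → Bool × Mat × Mat) {α : Type} (O : α → Vec → Option Vec)
    (p : α × ℕ × ℚ) : (Bool × Vec) × (Mat × Mat) × (ℚ × ℚ) :=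
  rOut lll p.2.1 ((rStep p.2.1 (O p.1))^[rT p.2.1 p.2.2] (rInit p.2.1 p.2.2))

/-! ### Invariants -/

/-- The geometric invariant: a simplex that contains `K`. -/
structure RInv (D : ℕ) (K : Set (ℕ → ℚ)) (st : RS) : Prop where
  pos : 0 < st.2.2
  intG : ∀ i j, IsI (ent st.2.1 i j)
  rep : ∀ x, Supp D x → ∀ c < D,
    ∑ j ∈ range (D + 1), aff D (ent st.2.1 j) x * ent st.1 j c = st.2.2 * x c
  one : ∀ x, ∑ j ∈ range (D + 1), aff D (ent st.2.1 j) x = st.2.2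
  dual : ∀ i ≤ D, ∀ j ≤ D, aff D (ent st.2.1 i) (ent st.1 j) = if i = j then st.2.2 else 0
  supp : ∀ j, Supp D (ent st.1 j)
  sub : ∀ x ∈ K, ∀ j ≤ D, 0 ≤ aff D (ent st.2.1 j) x

/-- Normalised determinant of the linear parts of the functionals `1, …, D`. -/
def rdet (D : ℕ) (st : RS) : ℚ :=
  (Matrix.of fun c k : Fin D => ent st.2.1 (k + 1) (c + 1)).det / st.2.2 ^ D

/-- Size invariant: denominators dividing a small number, bounded numerators, shapes. -/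
structure RSz (D : ℕ) (P Q M : ℕ) (st : RS) : Prop where
  lenV : st.1.length = D + 1
  rowV : ∀ r ∈ st.1, r.length = D
  lenG : st.2.1.length = D + 1
  rowG : ∀ r ∈ st.2.1, r.length = D + 1
  denV : ∃ d : ℕ, 0 < d ∧ d ≤ P ∧ ∀ i j, IsI (d * ent st.1 i j)
  denG : ∃ d : ℕ, 0 < d ∧ d ≤ Q ∧ (∀ i j, IsI (d * ent st.2.1 i j)) ∧ IsI (d * st.2.2)
  boundV : ∀ i j, |ent st.1 i j| ≤ M
  boundG : ∀ i j, |ent st.2.1 i j| ≤ M
  boundS : |st.2.2| ≤ M

/-! ### Statements of the modules -/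

/-- RTAB: entries of tabulations. -/
def S_RTAB : Prop :=
  (∀ n f i, fn (tab n f) i = if i < n then f i else 0) ∧
  (∀ n m f i j, ent (tabM n m f) i j = if i < n ∧ j < m then f i j else 0)

/-- RPROD: the product of the scaling factors. -/
def S_RPROD : Prop :=
  ∀ (D a : ℕ) (n : ℕ → ℚ), 1 ≤ D → a ≤ D →
    (∀ j ≤ D, -(4 * (D : ℚ) ^ 2) ≤ n j ∧ n j ≤ 4 * D) →
    ∑ j ∈ (range (D + 1)).filter (· ≠ a), n j ≤ -(2 * D) →
    1 + 1 / (16 * (D : ℚ) ^ 2) ≤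
      ∏ j ∈ (range (D + 1)).filter (· ≠ a), (16 * (D : ℚ) ^ 3 - n j) / (16 * (D : ℚ) ^ 3)

/-- RMAX: the largest vertex value. -/
def S_RMAX : Prop :=
  ∀ (D : ℕ) (s : Vec) (V : Mat), rMax D s V ≤ D ∧ ∀ j ≤ D, rVal D s V j ≤ rVal D s V (rMax D s V)

/-- RNUM: properties of the numbers of a cut (the first part holds for every `s`). -/
def S_RNUM : Prop :=
  (∀ (D : ℕ) (s : Vec) (V : Mat) (j : ℕ), IsI (rNum D s V j) ∧ -(4 * (D : ℚ) ^ 2) ≤ rNum D s V j ∧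
    (j ≤ D → rNum D s V j ≤ 4 * D)) ∧
  ∀ (D : ℕ) (s : Vec) (V : Mat) (b : ℕ), 1 ≤ D → b ≤ D → aff D (fn s) (fn (rShr D V b)) < 0 →
    ∑ j ∈ (range (D + 1)).filter (· ≠ rMax D s V), rNum D s V j ≤ -(2 * D)

/-- RVALID: the new facet is valid. -/
def S_RVALID : Prop :=
  ∀ (D : ℕ) (K : Set (ℕ → ℚ)) (s : Vec) (st : RS), 1 ≤ D → RInv D K st →
    (∀ x ∈ K, Supp D x) → (∀ x ∈ K, 0 ≤ aff D (fn s) x) →
    ∀ x ∈ K, 0 ≤ 16 * (D : ℚ) ^ 3 * aff D (ent st.2.1 (rMax D s st.1)) x +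
      ∑ k ∈ (range (D + 1)).filter (· ≠ rMax D s st.1), rNum D s st.1 k * aff D (ent st.2.1 k) x

/-- RCUT: the geometric invariant is preserved. -/
def S_RCUT : Prop :=
  ∀ (D a : ℕ) (K : Set (ℕ → ℚ)) (n : ℕ → ℚ) (st : RS), 1 ≤ D → a ≤ D → RInv D K st →
    (∀ j ≤ D, IsI (n j)) → (∀ j ≤ D, n j ≤ 4 * D) →
    (∀ x ∈ K, 0 ≤ 16 * (D : ℚ) ^ 3 * aff D (ent st.2.1 a) x +
      ∑ k ∈ (range (D + 1)).filter (· ≠ a), n k * aff D (ent st.2.1 k) x) →
    RInv D K (rCut D a n st)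

/-- RDET: the determinant grows by the product of the scaling factors. -/
def S_RDET : Prop :=
  ∀ (D a : ℕ) (K : Set (ℕ → ℚ)) (n : ℕ → ℚ) (st : RS), 1 ≤ D → a ≤ D → RInv D K st →
    rdet D (rCut D a n st) =
      (∏ j ∈ (range (D + 1)).filter (· ≠ a), (16 * (D : ℚ) ^ 3 - n j) / (16 * (D : ℚ) ^ 3)) *
        rdet D st

/-- RINIT: the initial simplex. -/
def S_RINIT : Prop :=
  ∀ (D : ℕ) (B : ℚ) (K : Set (ℕ → ℚ)), 1 ≤ D → IsI B → 2 ≤ B → (∀ x ∈ K, Box D B x) →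
    RInv D K (rInit D B) ∧ rdet D (rInit D B) = (1 / (2 * D * B)) ^ D

/-- RINNER: the inner simplex is contained in `K` when all shrunk vertices are. -/
def S_RINNER : Prop :=
  ∀ (D : ℕ) (K : Set (ℕ → ℚ)) (st : RS), 1 ≤ D → RInv D K st → Convex ℚ K →
    (∀ b ≤ D, fn (rShr D st.1 b) ∈ K) →
    ∀ x, Supp D x → (∀ j ∈ range (D + 1), (1 - 1 / RD D) / (D + 1) * st.2.2 ≤
      aff D (ent st.2.1 j) x) → x ∈ K

/-- RLAT: the matrix given to the lattice reduction is admissible. -/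
def S_RLAT : Prop :=
  ∀ (D : ℕ) (K : Set (ℕ → ℚ)) (st : RS), 1 ≤ D → RInv D K st →
    (∀ i j, IsI (ent (rMat D st) i j)) ∧ 0 < st.2.2 ^ 2 * h0 D ∧
    ∀ x, Supp D x → (∀ k < D, ∑ c ∈ range D, x c * ent (rMat D st) c k = 0) → ∀ c, x c = 0

/-- RTHICK: the thick case. -/
def S_RTHICK : Prop :=
  ∀ (D : ℕ) (K : Set (ℕ → ℚ)) (st : RS) (X : ℚ) (U W : Mat), 1 ≤ D → RInv D K st →
    LLLOut D D (rMat D st) (st.2.2 ^ 2 * h0 D) X false U W →
    (∀ x, Supp D x → (∀ j ∈ range (D + 1), (1 - 1 / RD D) / (D + 1) * st.2.2 ≤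
      aff D (ent st.2.1 j) x) → x ∈ K) →
    (rZ D st.1 U W).length = D ∧ Lat D (fn (rZ D st.1 U W)) ∧ ThickCert D K (fn (rZ D st.1 U W))

/-- RFLAT: the flat case. -/
def S_RFLAT : Prop :=
  ∀ (D : ℕ) (K : Set (ℕ → ℚ)) (st : RS) (X : ℚ) (U W : Mat), 1 ≤ D → RInv D K st →
    (∀ x ∈ K, Supp D x) →
    LLLOut D D (rMat D st) (st.2.2 ^ 2 * h0 D) X true U W →
    ∀ x ∈ K, rK D st.1 W - wdh D ≤ ∑ c ∈ range D, ent W (D - 1) c * x c ∧
      ∑ c ∈ range D, ent W (D - 1) c * x c ≤ rK D st.1 W + 1 + wdh D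

/-- RDETB: in the thick case the determinant is at most one. -/
def S_RDETB : Prop :=
  ∀ (D : ℕ) (K : Set (ℕ → ℚ)) (st : RS) (X : ℚ) (U W : Mat), 1 ≤ D → RInv D K st →
    LLLOut D D (rMat D st) (st.2.2 ^ 2 * h0 D) X false U W → rdet D st ^ 2 ≤ 1

/-- RTIME: the number of steps is large enough. -/
def S_RTIME : Prop :=
  ∀ (D : ℕ) (B : ℚ), 1 ≤ D → IsI B → 2 ≤ B →
    1 < (1 + 1 / (16 * (D : ℚ) ^ 2)) ^ rT D B * (1 / (2 * D * B)) ^ D

/-- RSZ0: sizes at the start. -/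
def S_RSZ0 : Prop :=
  ∀ (D : ℕ) (B : ℚ), RSz D B.den B.den ((2 * D + 1) * (B.num.natAbs + 1)) (rInit D B)

/-- RSZ1: sizes after one cut. -/
def S_RSZ1 : Prop :=
  ∀ (D a P Q M : ℕ) (n : ℕ → ℚ) (st : RS), a ≤ D → RSz D P Q M st →
    (∀ j ≤ D, IsI (n j) ∧ -(4 * (D : ℚ) ^ 2) ≤ n j ∧ n j ≤ 4 * D) →
    RSz D (P * (20 * D ^ 3 + 1) ^ D) Q (M * (20 * D ^ 3 + 4)) (rCut D a n st)

/-- RPT1: the step is polynomial time. -/
def S_RPT1 : Prop :=
  ∀ (α : Type) [Enc α] (O : α → Vec → Option Vec), PTime (fun p : α × Vec => O p.1 p.2) →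
    PTime (fun p : (α × ℕ) × RS => rStep p.1.2 (O p.1.1) p.2)

/-- RPT2: number of steps and initial state are polynomial time. -/
def S_RPT2 : Prop :=
  PTime (fun p : ℕ × ℚ => rT p.1 p.2) ∧ PTime (fun p : ℕ × ℚ => rInit p.1 p.2)

/-- RPT3: the output function is polynomial time. -/
def S_RPT3 : Prop :=
  ∀ (lll : ℕ × ℕ × Mat × ℚ → Bool × Mat × Mat), PTime lll →
    PTime (fun p : ℕ × RS => rOut lll p.1 p.2)

/-- RSZB: sizes of states. -/
def S_RSZB : Prop :=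
  ∃ T : Polynomial ℕ, ∀ (D P Q M : ℕ) (st : RS), RSz D P Q M st →
    sz st ≤ T.eval (D + P.size + Q.size + M.size)

/-- RPT4: the loop is polynomial time. -/
def S_RPT4 : Prop :=
  ∀ (α : Type) [Enc α] (O : α → Vec → Option Vec), PTime (fun p : α × Vec => O p.1 p.2) →
    PTime (fun p : α × ℕ × ℚ => (rStep p.2.1 (O p.1))^[rT p.2.1 p.2.2] (rInit p.2.1 p.2.2))

/-- Exponent of the growth bound. -/
def crD (D : ℕ) : ℕ := (1000 * (D + 1) ^ 8) * (4 * D + 4) + 1000 * (D + 1) ^ 8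

/-- RGROW: growth bounds for the output of the flat case. -/
def S_RGROW : Prop :=
  ∀ (D : ℕ) (B : ℚ), 1 ≤ D → IsI B → 2 ≤ B →
    ∃ X : ℚ, 1 ≤ X ∧
      (((2 * D + 1) * (B.num.natAbs + 1) * (20 * D ^ 3 + 4) ^ rT D B : ℕ) : ℚ) ≤ X ∧
      (D * D * X + 2) ^ (4 * D + 4) ≤ B ^ crD D ∧
      D * ((D * D * X + 2) ^ (4 * D + 4) * X) + 2 + wdh D ≤ B ^ crD D

/-- RCMP: the constants are primitive recursive. -/
def S_RCMP : Prop := Cmp crD ∧ Cmp (fun D => 2 * wdh D + 1)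

/-- RLOOP: the invariants along the loop. -/
def S_RLOOP : Prop :=
  ∀ (D : ℕ) (B : ℚ) (K : Set (ℕ → ℚ)) (O : Vec → Option Vec), 1 ≤ D → IsI B → 2 ≤ B →
    Convex ℚ K → (∀ x ∈ K, Box D B x) → IsOracle D K O →
    ∀ t : ℕ, RInv D K ((rStep D O)^[t] (rInit D B)) ∧
      ((∀ b ≤ D, fn (rShr D ((rStep D O)^[t] (rInit D B)).1 b) ∈ K) ∨
        (1 + 1 / (16 * (D : ℚ) ^ 2)) ^ t * (1 / (2 * D * B)) ^ D ≤
          rdet D ((rStep D O)^[t] (rInit D B)))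

end Pool.HMS
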