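import Pool.Agent.H45.HMS.PLib
import Pool.Agent.H91.HMS.RLib

/-!
# HMS box 2: more polynomial time lemmas over `ℚ` (from `QOps`, `QSums`)

Use with `attribute [local fun_prop]` and `[Fact QOps] [Fact QSums]`, see `RPT1.lean`.
-/

set_option autoImplicit false

namespace Pool.HMS

open TMLib Finset

variable {α : Type} [Enc α]

namespace P91

theorem qfloor [h : Fact QOps] {f : α → ℚ} (hf : PTime f) : PTime (fun x => ⌊f x⌋) :=
  PTime.comp (g := fun a : ℚ => ⌊a⌋) h.out.floor hf

theorem qceilQ [Fact QOps] {f : α → ℚ} (hf : PTime f) : PTime (fun x => ((⌈f x⌉ : ℤ) : ℚ)) := by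
  refine (P45.neg (P45.castInt (qfloor (P45.neg hf)))).congr fun x => ?_
  rw [Int.floor_neg]
  push_cast
  ring

theorem qmax [Fact QOps] {f g : α → ℚ} (hf : PTime f) (hg : PTime g) :
    PTime (fun x => max (f x) (g x)) := by
  refine (PTime.ite (c := fun x => f x ≤ g x) (P45.le hf hg) hg hf).congr fun x => ?_
  rw [max_def]

theorem qabs [Fact QOps] {f : α → ℚ} (hf : PTime f) : PTime (fun x => |f x|) := by
  refine (qmax hf (P45.neg hf)).congr fun x => ?_
  rfl

theorem qeq [Fact QOps] {f g : α → ℚ} (hf : PTime f) (hg : PTime g) :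
    PTime (fun x => decide (f x = g x)) := by
  refine (PTime.and (P45.le hf hg) (P45.le hg hf)).congr fun x => ?_
  rw [Bool.eq_iff_iff]
  simp [le_antisymm_iff]

theorem sum_range_list (n : ℕ) (f : ℕ → ℚ) : ∑ i ∈ range n, f i = ((List.range n).map f).sum := by
  induction n with
  | zero => simp
  | succ n ih => rw [Finset.sum_range_succ, ih, List.range_succ, List.map_append, List.sum_append]; simp

theorem sumRange [Fact QSums] {n : α → ℕ} {g : α → ℕ → ℚ} (hn : PTime n)
    (hg : PTime fun p : α × ℕ => g p.1 p.2) : PTime (fun a => ∑ i ∈ range (n a), g a i) := by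
  simp_rw [sum_range_list]
  exact P45.sum (PTime.map (PTime.range hn) hg)

theorem tabM' {n m : α → ℕ} {g : α → ℕ → ℕ → ℚ} (hn : PTime n) (hm : PTime m)
    (hg : PTime fun p : (α × ℕ) × ℕ => g p.1.1 p.1.2 p.2) :
    PTime (fun a => tabM (n a) (m a) (g a)) := by
  unfold tabM
  refine PTime.map (PTime.range hn) ?_
  exact P45.tab' (n := fun p : α × ℕ => m p.1) (f := fun p j => g p.1 p.2 j) (by fun_prop) hg

theorem aff' [Fact QOps] [Fact QSums] {D : α → ℕ} {s x : α → ℕ → ℚ} (hD : PTime D)
    (hs : PTime fun p : α × ℕ => s p.1 p.2) (hx : PTime fun p : α × ℕ => x p.1 p.2) :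
    PTime (fun a => aff (D a) (s a) (x a)) := by
  unfold aff
  refine P45.add ?_ (sumRange hD ?_)
  · exact hs.comp (f := fun a => (a, 0)) (by fun_prop)
  · refine P45.mul ?_ hx
    exact hs.comp (f := fun p : α × ℕ => (p.1, p.2 + 1)) (by fun_prop)

theorem lin' [Fact QOps] [Fact QSums] {D : α → ℕ} {s x : α → ℕ → ℚ} (hD : PTime D)
    (hs : PTime fun p : α × ℕ => s p.1 p.2) (hx : PTime fun p : α × ℕ => x p.1 p.2) :
    PTime (fun a => lin (D a) (s a) (x a)) := by
  unfold lin
  exact sumRange hD (P45.mul hs hx)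

theorem RD' [Fact QOps] [Fact QSums] {D : α → ℕ} (hD : PTime D) : PTime (fun a => RD (D a)) := by
  unfold RD
  exact P45.add (P45.mul (PTime.const _) (P45.pow (P45.castNat hD) (PTime.const _))) (PTime.const _)

end P91

end Pool.HMS

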