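import Pool.Agent.H91.HMS.Lem1

set_option autoImplicit false

/-!
# HMS, section 5: bounded integral separators

Farkas' lemma by induction on the generators, and for an integral vector `p` outside the cone of a
finite set `A` of integral vectors an integral separator with small entries (Cramer's rule).
-/

namespace Pool.HMS

open Finset

/-- `p` is in the real cone generated by the finite set `A`. -/
def InConeF {n : ℕ} (A : Finset (Fin n → ℝ)) (p : Fin n → ℝ) : Prop :=
  ∃ c : (Fin n → ℝ) → ℝ, (∀ a ∈ A, 0 ≤ c a) ∧ p = ∑ a ∈ A, c a • a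

/-- Farkas' lemma for a list of generators. -/
theorem farkas_list {n : ℕ} (L : List (Fin n → ℝ)) : ∀ (p : Fin n → ℝ),
    (∃ c : List ℝ, c.length = L.length ∧ (∀ x ∈ c, 0 ≤ x) ∧
      p = (List.zipWith (fun (x : ℝ) (a : Fin n → ℝ) => x • a) c L).sum) ∨
    (∃ w : Fin n → ℝ, (∀ a ∈ L, 0 ≤ w ⬝ᵥ a) ∧ w ⬝ᵥ p < 0) := by
  induction hk : L.length generalizing L with
  | zero =>
    intro p
    have hL : L = [] := List.eq_nil_of_length_eq_zero hk
    subst hL
    by_cases hp : p = 0
    · left; exact ⟨[], rfl, by simp, by simp [hp]⟩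
    · right
      refine ⟨-p, by simp, ?_⟩
      rw [neg_dotProduct, neg_lt_zero]
      refine lt_of_le_of_ne ?_ (fun h => hp (dotProduct_self_eq_zero.mp h.symm))
      exact Finset.sum_nonneg fun i _ => mul_self_nonneg (p i)
  | succ k ih =>
    intro p
    obtain ⟨b, L, rfl⟩ : ∃ b L', L = b :: L' := by
      cases L with
      | nil => simp at hk
      | cons b L => exact ⟨b, L, rfl⟩
    have hk' : L.length = k := by simpa using hk
    rcases ih L hk' p with ⟨c, hc, hc0, hcp⟩ | ⟨w, hw, hwp⟩
    · left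
      refine ⟨0 :: c, by simp [hc], ?_, ?_⟩
      · intro x hx
        rcases List.mem_cons.mp hx with rfl | hx
        · exact le_rfl
        · exact hc0 x hx
      · simp [hcp]
    · by_cases hwb : 0 ≤ w ⬝ᵥ b
      · right
        refine ⟨w, ?_, hwp⟩
        intro a ha
        rcases List.mem_cons.mp ha with rfl | ha
        · exact hwb
        · exact hw a ha
      · push Not at hwb
        set L' : List (Fin n → ℝ) := L.map (fun a => (w ⬝ᵥ a) • b - (w ⬝ᵥ b) • a) with hL'
        rcases ih L' (by simp [hL', hk']) ((w ⬝ᵥ p) • b - (w ⬝ᵥ b) • p) with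
          ⟨c, hc, hc0, hcp⟩ | ⟨w', hw', hwp'⟩
        · left
          -- the combination
          have key : ∀ (c : List ℝ) (L : List (Fin n → ℝ)),
              (List.zipWith (fun (x : ℝ) (a : Fin n → ℝ) => x • a) c
                (L.map (fun a => (w ⬝ᵥ a) • b - (w ⬝ᵥ b) • a))).sum =
              (List.zipWith (fun (x : ℝ) (a : Fin n → ℝ) => x * (w ⬝ᵥ a)) c L).sum • b -
                (w ⬝ᵥ b) • (List.zipWith (fun (x : ℝ) (a : Fin n → ℝ) => x • a) c L).sum := by
            intro c
            induction c with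
            | nil => intro L; simp
            | cons x c ihc =>
              intro L
              cases L with
              | nil => simp
              | cons a L =>
                simp only [List.map_cons, List.zipWith_cons_cons, List.sum_cons, ihc]
                module
          have hnn : ∀ (c : List ℝ) (L : List (Fin n → ℝ)), (∀ x ∈ c, 0 ≤ x) →
              (∀ a ∈ L, 0 ≤ w ⬝ᵥ a) →
              0 ≤ (List.zipWith (fun (x : ℝ) (a : Fin n → ℝ) => x * (w ⬝ᵥ a)) c L).sum := by
            intro c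
            induction c with
            | nil => intro L _ _; simp
            | cons x c ihc =>
              intro L h1 h2
              cases L with
              | nil => simp
              | cons a L =>
                simp only [List.zipWith_cons_cons, List.sum_cons]
                exact add_nonneg (mul_nonneg (h1 x (by simp)) (h2 a (by simp)))
                  (ihc L (fun y hy => h1 y (by simp [hy])) (fun y hy => h2 y (by simp [hy])))
          rw [hL', key] at hcp
          set S := (List.zipWith (fun (x : ℝ) (a : Fin n → ℝ) => x * (w ⬝ᵥ a)) c L).sum with hS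
          have hS0 : 0 ≤ S := hnn c L hc0 hw
          set Z := (List.zipWith (fun (x : ℝ) (a : Fin n → ℝ) => x • a) c L).sum with hZ
          refine ⟨((w ⬝ᵥ p - S) / (w ⬝ᵥ b)) :: c, ?_, ?_, ?_⟩
          · simp [hc]
          · intro x hx
            rcases List.mem_cons.mp hx with rfl | hx
            · exact div_nonneg_of_nonpos (by linarith) hwb.le
            · exact hc0 x hx
          · rw [List.zipWith_cons_cons, List.sum_cons, ← hZ]
            have h1 : (w ⬝ᵥ b) • p = (w ⬝ᵥ p - S) • b + (w ⬝ᵥ b) • Z := by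
              have h2 : (w ⬝ᵥ b) • p = (w ⬝ᵥ p) • b - ((w ⬝ᵥ p) • b - (w ⬝ᵥ b) • p) := by
                abel
              rw [h2, hcp]
              module
            have h3 : p = (w ⬝ᵥ b)⁻¹ • ((w ⬝ᵥ b) • p) := by
              rw [smul_smul, inv_mul_cancel₀ hwb.ne, one_smul]
            calc p = (w ⬝ᵥ b)⁻¹ • ((w ⬝ᵥ b) • p) := h3
              _ = (w ⬝ᵥ b)⁻¹ • ((w ⬝ᵥ p - S) • b + (w ⬝ᵥ b) • Z) := by rw [h1]
              _ = _ := by
                rw [smul_add, smul_smul, smul_smul, inv_mul_cancel₀ hwb.ne, one_smul]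
                congr 2
                ring
        · right
          refine ⟨(w' ⬝ᵥ b) • w - (w ⬝ᵥ b) • w', ?_, ?_⟩
          · intro a ha
            rcases List.mem_cons.mp ha with rfl | ha
            · rw [sub_dotProduct, smul_dotProduct, smul_dotProduct, smul_eq_mul, smul_eq_mul]
              linarith [mul_comm (w' ⬝ᵥ a) (w ⬝ᵥ a)]
            · have h1 := hw' ((w ⬝ᵥ a) • b - (w ⬝ᵥ b) • a)
                (by rw [hL']; exact List.mem_map.mpr ⟨a, ha, rfl⟩)
              rw [dotProduct_sub, dotProduct_smul, dotProduct_smul, smul_eq_mul, smul_eq_mul] at h1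
              rw [sub_dotProduct, smul_dotProduct, smul_dotProduct, smul_eq_mul, smul_eq_mul]
              linarith [mul_comm (w' ⬝ᵥ b) (w ⬝ᵥ a)]
          · rw [dotProduct_sub, dotProduct_smul, dotProduct_smul, smul_eq_mul, smul_eq_mul] at hwp'
            rw [sub_dotProduct, smul_dotProduct, smul_dotProduct, smul_eq_mul, smul_eq_mul]
            linarith [mul_comm (w' ⬝ᵥ b) (w ⬝ᵥ p)]

/-- Farkas' lemma for a finite set of generators. -/
theorem farkas {n : ℕ} (A : Finset (Fin n → ℝ)) (p : Fin n → ℝ) (hp : ¬ InConeF A p) :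
    ∃ w : Fin n → ℝ, (∀ a ∈ A, 0 ≤ w ⬝ᵥ a) ∧ w ⬝ᵥ p < 0 := by
  classical
  rcases farkas_list A.toList p with ⟨c, hc, hc0, hcp⟩ | ⟨w, hw, hwp⟩
  · exfalso
    apply hp
    have key : ∀ (L : List (Fin n → ℝ)) (c : List ℝ), L.Nodup → c.length = L.length →
        (∀ x ∈ c, 0 ≤ x) → ∃ d : (Fin n → ℝ) → ℝ, (∀ a, 0 ≤ d a) ∧
          (List.zipWith (fun (x : ℝ) (a : Fin n → ℝ) => x • a) c L).sum =
            (L.map fun a => d a • a).sum := by
      intro L
      induction L with
      | nil => intro c _ _ _; exact ⟨fun _ => 0, fun _ => le_rfl, by simp⟩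
      | cons b L ih =>
        intro c hL hc hc0
        cases c with
        | nil => simp at hc
        | cons x c =>
          obtain ⟨d, hd, hds⟩ := ih c (List.nodup_cons.mp hL).2 (by simpa using hc)
            (fun y hy => hc0 y (by simp [hy]))
          refine ⟨Function.update d b x, ?_, ?_⟩
          · intro a
            by_cases h : a = b
            · rw [h, Function.update_self]; exact hc0 x (by simp)
            · rw [Function.update_of_ne h]; exact hd a
          · rw [List.zipWith_cons_cons, List.sum_cons, List.map_cons, List.sum_cons,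
              Function.update_self, hds]
            congr 2
            refine List.map_congr_left fun a ha => ?_
            have : a ≠ b := fun h => (List.nodup_cons.mp hL).1 (h ▸ ha)
            rw [Function.update_of_ne this]
    obtain ⟨d, hd, hds⟩ := key A.toList c A.nodup_toList hc hc0
    refine ⟨d, fun a _ => hd a, ?_⟩
    rw [hcp, hds]
    exact Finset.sum_map_toList A (fun a => d a • a)
  · exact ⟨w, fun a ha => hw a (by simpa using ha), hwp⟩

/-- Cramer's rule: integral solution with small entries of a nonsingular integral system,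
up to the factor `|det|`. -/
theorem cramer_bound {n : ℕ} (V : Matrix (Fin n) (Fin n) ℤ) (r : Fin n → ℤ) (X : ℤ) (hX : 1 ≤ X)
    (hV : ∀ i j, |V i j| ≤ X) (hr : ∀ i, |r i| ≤ 1) (w : Fin n → ℝ)
    (hw : ∀ i, toR (V i) ⬝ᵥ w = r i) :
    ∃ z : Fin n → ℤ, toR z = (V.det : ℝ) • w ∧ ∀ i, |z i| ≤ n * (n.factorial * X ^ n) := by
  refine ⟨V.adjugate.mulVec r, ?_, ?_⟩
  · have h1 : (V.map (Int.cast : ℤ → ℝ)).mulVec w = toR r := by
      ext i
      have := hw i
      simp only [Matrix.mulVec, dotProduct, Matrix.map_apply, toR] at this ⊢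
      exact this
    have h2 : toR (V.adjugate.mulVec r) = (V.adjugate.map (Int.cast : ℤ → ℝ)).mulVec (toR r) := by
      ext i
      simp [Matrix.mulVec, dotProduct, toR]
    have h3 : V.adjugate.map (Int.cast : ℤ → ℝ) = (V.map (Int.cast : ℤ → ℝ)).adjugate := by
      have := (RingHom.map_adjugate (Int.castRingHom ℝ) V)
      simpa [RingHom.mapMatrix_apply] using this
    have h4 : (V.map (Int.cast : ℤ → ℝ)).det = (V.det : ℝ) := by
      have := (RingHom.map_det (Int.castRingHom ℝ) V)
      simpa [RingHom.mapMatrix_apply] using this.symm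
    rw [h2, ← h1, Matrix.mulVec_mulVec, h3, Matrix.adjugate_mul, h4, Matrix.smul_mulVec,
      Matrix.one_mulVec]
  · intro i
    have hadj : ∀ i j, |V.adjugate i j| ≤ n.factorial * X ^ n := by
      intro i j
      rw [Matrix.adjugate_apply]
      have := Matrix.det_le (A := V.updateRow j (Pi.single i 1)) (abv := AbsoluteValue.abs) (x := X)
        (by
          intro a b
          change |V.updateRow j (Pi.single i 1) a b| ≤ X
          rw [Matrix.updateRow_apply]
          split_ifs with h
          · by_cases hb : b = i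
            · subst hb; simp only [Pi.single_eq_same, abs_one]; exact hX
            · rw [Pi.single_eq_of_ne hb, abs_zero]; omega
          · exact hV a b)
      simpa [nsmul_eq_mul] using this
    calc |V.adjugate.mulVec r i| = |∑ j, V.adjugate i j * r j| := rfl
      _ ≤ ∑ j, |V.adjugate i j * r j| := Finset.abs_sum_le_sum_abs _ _
      _ ≤ ∑ _j : Fin n, (n.factorial * X ^ n : ℤ) := by
          refine Finset.sum_le_sum fun j _ => ?_
          rw [abs_mul]
          calc |V.adjugate i j| * |r j| ≤ (n.factorial * X ^ n : ℤ) * 1 :=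
                mul_le_mul (hadj i j) (hr j) (abs_nonneg _) ((abs_nonneg _).trans (hadj i j))
            _ = _ := mul_one _
      _ = _ := by simp

/-- Among the constraints `v k ⬝ w = r k` (`k` in a finite type), a feasible `w` with a maximal
number of tight constraints has spanning tight vectors, if the standard basis vectors with target
`0` occur. -/
theorem exists_tight {n : ℕ} (A : Finset (Fin n → ℤ)) (p : Fin n → ℤ) (w0 : Fin n → ℝ)
    (hw0 : ∀ a ∈ A, 0 ≤ toR a ⬝ᵥ w0) (hp0 : toR p ⬝ᵥ w0 ≤ -1) :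
    ∃ (w : Fin n → ℝ) (V : Fin n → Fin n → ℤ) (r : Fin n → ℤ),
      (∀ a ∈ A, 0 ≤ toR a ⬝ᵥ w) ∧ toR p ⬝ᵥ w ≤ -1 ∧ (∀ i, |r i| ≤ 1) ∧
      (∀ i, V i ∈ A ∨ V i = p ∨ ∃ j, V i = Pi.single j 1) ∧ (∀ i, toR (V i) ⬝ᵥ w = r i) ∧
      LinearIndependent ℝ (fun i => toR (V i)) := by
  classical
  let K := (↥A ⊕ (Unit ⊕ Fin n))
  let vec : K → (Fin n → ℤ) := Sum.elim (fun a => (a : Fin n → ℤ))
    (Sum.elim (fun _ => p) (fun j => Pi.single j 1))
  let val : K → ℤ := Sum.elim (fun _ => 0) (Sum.elim (fun _ => -1) (fun _ => 0))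
  let Tight : (Fin n → ℝ) → Finset K := fun w =>
    Finset.univ.filter (fun k => toR (vec k) ⬝ᵥ w = val k)
  let Feas : Set (Fin n → ℝ) := {w | (∀ a ∈ A, 0 ≤ toR a ⬝ᵥ w) ∧ toR p ⬝ᵥ w ≤ -1}
  have hfin : (Tight '' Feas).Finite := Set.toFinite _
  have hne : (Tight '' Feas).Nonempty := ⟨_, w0, ⟨hw0, hp0⟩, rfl⟩
  obtain ⟨T, ⟨w, ⟨hwA, hwp⟩, rfl⟩, hmax⟩ := Set.exists_max_image _ Finset.card hfin hne
  have hspan : ∀ d : Fin n → ℝ, (∀ k ∈ Tight w, toR (vec k) ⬝ᵥ d = 0) → d = 0 := by
    intro d hd
    by_contra hd0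
    obtain ⟨i, hi⟩ : ∃ i, d i ≠ 0 := by
      by_contra h
      push Not at h
      exact hd0 (funext h)
    set I := Finset.univ.filter (fun k : K => k ∉ Tight w ∧ toR (vec k) ⬝ᵥ d ≠ 0) with hI
    have hIi : (Sum.inr (Sum.inr i) : K) ∈ I := by
      have h1 : toR (vec (Sum.inr (Sum.inr i))) ⬝ᵥ d = d i := by
        have : toR (vec (Sum.inr (Sum.inr i))) = Pi.single i 1 := by
          ext j
          simp only [vec, Sum.elim_inr, toR]
          by_cases h : j = i
          · subst h; simp
          · simp [Pi.single_eq_of_ne h]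
        rw [this, single_one_dotProduct]
      rw [hI, Finset.mem_filter]
      refine ⟨Finset.mem_univ _, fun h => ?_, by rw [h1]; exact hi⟩
      exact hi (h1.symm.trans (hd _ h))
    obtain ⟨k1, hk1, hmin⟩ := Finset.exists_min_image I
      (fun k => |((val k : ℝ) - toR (vec k) ⬝ᵥ w) / (toR (vec k) ⬝ᵥ d)|) ⟨_, hIi⟩
    set t : ℝ := ((val k1 : ℝ) - toR (vec k1) ⬝ᵥ w) / (toR (vec k1) ⬝ᵥ d) with ht
    have hk1' := (Finset.mem_filter.mp hk1).2
    have hmove : ∀ k : K, toR (vec k) ⬝ᵥ (w + t • d) =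
        toR (vec k) ⬝ᵥ w + t * (toR (vec k) ⬝ᵥ d) := by
      intro k; rw [dotProduct_add, dotProduct_smul, smul_eq_mul]
    have hbd : ∀ k : K, |t * (toR (vec k) ⬝ᵥ d)| ≤ |(val k : ℝ) - toR (vec k) ⬝ᵥ w| := by
      intro k
      by_cases hkd : toR (vec k) ⬝ᵥ d = 0
      · rw [hkd, mul_zero, abs_zero]; exact abs_nonneg _
      · have hkI : k ∈ I := by
          rw [hI, Finset.mem_filter]
          exact ⟨Finset.mem_univ _, fun h => hkd (hd k h), hkd⟩
        have h1 := hmin k hkI
        rw [abs_div] at h1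
        rw [abs_mul]
        calc |t| * |toR (vec k) ⬝ᵥ d|
            ≤ (|(val k : ℝ) - toR (vec k) ⬝ᵥ w| / |toR (vec k) ⬝ᵥ d|) * |toR (vec k) ⬝ᵥ d| := by
              refine mul_le_mul_of_nonneg_right ?_ (abs_nonneg _)
              rw [ht]
              rw [abs_div] at h1 ⊢
              simpa [abs_div] using h1
          _ = _ := div_mul_cancel₀ _ (abs_ne_zero.mpr hkd)
    have hfeas : w + t • d ∈ Feas := by
      refine ⟨fun a ha => ?_, ?_⟩
      · have h1 := hmove (Sum.inl ⟨a, ha⟩)
        have h2 := hbd (Sum.inl ⟨a, ha⟩)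
        simp only [vec, val, Sum.elim_inl, Int.cast_zero, zero_sub, abs_neg] at h1 h2
        rw [abs_of_nonneg (hwA a ha)] at h2
        rw [h1]
        linarith [(abs_le.mp h2).1]
      · have h1 := hmove (Sum.inr (Sum.inl ()))
        have h2 := hbd (Sum.inr (Sum.inl ()))
        simp only [vec, val, Sum.elim_inr, Sum.elim_inl, Int.cast_neg, Int.cast_one] at h1 h2
        rw [abs_of_nonneg (by linarith : (0 : ℝ) ≤ -1 - toR p ⬝ᵥ w)] at h2
        rw [h1]
        linarith [(abs_le.mp h2).2]
    have hsub : insert k1 (Tight w) ⊆ Tight (w + t • d) := by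
      intro k hk
      rcases Finset.mem_insert.mp hk with rfl | hk
      · refine Finset.mem_filter.mpr ⟨Finset.mem_univ _, ?_⟩
        rw [hmove, ht, div_mul_cancel₀ _ hk1'.2]
        ring
      · refine Finset.mem_filter.mpr ⟨Finset.mem_univ _, ?_⟩
        rw [hmove, hd k hk, mul_zero, add_zero]
        exact (Finset.mem_filter.mp hk).2
    have h1 := Finset.card_le_card hsub
    rw [Finset.card_insert_of_notMem hk1'.1] at h1
    have h2 := hmax _ ⟨w + t • d, hfeas, rfl⟩
    omega
  -- the tight vectors span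
  have hsp : Submodule.span ℝ ((fun k => toR (vec k)) '' (Tight w : Set K)) = ⊤ := by
    by_contra hne
    obtain ⟨f, hf, hker⟩ := Submodule.exists_le_ker_of_lt_top _ (lt_top_iff_ne_top.mpr hne)
    apply hf
    set d : Fin n → ℝ := fun i => f (Pi.single i 1) with hd
    have hfd : ∀ x, f x = x ⬝ᵥ d := by
      intro x
      conv_lhs => rw [← Finset.univ_sum_single x]
      rw [map_sum]
      refine Finset.sum_congr rfl fun i _ => ?_
      have : (Pi.single i (x i) : Fin n → ℝ) = x i • Pi.single i 1 := by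
        rw [← Pi.single_smul]; simp
      rw [this, map_smul, smul_eq_mul]
    have hd0 : d = 0 := by
      apply hspan
      intro k hk
      rw [← hfd]
      exact hker (Submodule.subset_span ⟨k, hk, rfl⟩)
    ext i
    have : f (Pi.single i 1) = d i := rfl
    simp [this, hd0]
  obtain ⟨b, hbt, hbspan, hbli⟩ := exists_linearIndependent ℝ
    ((fun k => toR (vec k)) '' (Tight w : Set K))
  have hb : ⊤ ≤ Submodule.span ℝ (Set.range ((↑) : b → (Fin n → ℝ))) := by
    rw [Subtype.range_coe, hbspan, hsp]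
  let B := Module.Basis.mk hbli hb
  have hbfin : b.Finite := (Set.toFinite _).subset hbt
  let _ : Fintype b := hbfin.fintype
  have hcard : Fintype.card b = n := by
    have h1 := Module.finrank_eq_card_basis B
    rw [Module.finrank_fin_fun] at h1
    exact h1.symm
  let eb : Fin n ≃ b := (Fintype.equivFinOfCardEq hcard).symm
  have hex : ∀ i : Fin n, ∃ k ∈ Tight w, toR (vec k) = (eb i : Fin n → ℝ) := by
    intro i
    obtain ⟨k, hk, hk2⟩ := hbt (eb i).2
    exact ⟨k, hk, hk2⟩
  choose k hk hke using hex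
  refine ⟨w, fun i => vec (k i), fun i => val (k i), hwA, hwp, ?_, ?_, ?_, ?_⟩
  · have : ∀ q : K, |val q| ≤ 1 := by
      intro q
      rcases q with a | a | a <;> simp [val]
    exact fun i => this (k i)
  · have : ∀ q : K, vec q ∈ A ∨ vec q = p ∨ ∃ j, vec q = Pi.single j 1 := by
      intro q
      rcases q with a | a | a
      · exact Or.inl a.2
      · exact Or.inr (Or.inl rfl)
      · exact Or.inr (Or.inr ⟨a, rfl⟩)
    exact fun i => this (k i)
  · intro i
    exact (Finset.mem_filter.mp (hk i)).2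
  · have h1 : (fun i => toR (vec (k i))) = fun i => ((eb i : b) : Fin n → ℝ) := funext hke
    rw [h1]
    exact hbli.comp eb eb.injective

/-- **Bounded separators.** -/
theorem bounded_separator {n : ℕ} (A : Finset (Fin n → ℤ)) (p : Fin n → ℤ) (X : ℤ) (hX : 1 ≤ X)
    (hA : ∀ a ∈ A, ∀ i, |a i| ≤ X) (hpX : ∀ i, |p i| ≤ X)
    (hp : ¬ ∃ c : (Fin n → ℤ) → ℝ, (∀ a ∈ A, 0 ≤ c a) ∧ toR p = ∑ a ∈ A, c a • toR a) :
    ∃ w : Fin n → ℤ, (∀ a ∈ A, 0 ≤ w ⬝ᵥ a) ∧ w ⬝ᵥ p ≤ -1 ∧
      ∀ i, |w i| ≤ n * (n.factorial * X ^ n) := by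
  classical
  have htoRinj : Function.Injective (toR : (Fin n → ℤ) → (Fin n → ℝ)) := by
    intro x y hxy
    ext i
    have := congrFun hxy i
    simpa [toR] using this
  obtain ⟨w0, hw0, hw0p⟩ := farkas (A.image toR) (toR p) (by
    rintro ⟨c, hc, hcp⟩
    apply hp
    refine ⟨fun a => c (toR a), fun a ha => hc _ (Finset.mem_image_of_mem _ ha), ?_⟩
    rw [hcp, Finset.sum_image (fun x _ y _ h => htoRinj h)])
  set s : ℝ := -(w0 ⬝ᵥ toR p) with hs
  have hs0 : 0 < s := by rw [hs]; linarith
  obtain ⟨w, V, r, hwA, hwp, hr, hV, hVr, hli⟩ := exists_tight A p (s⁻¹ • w0)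
    (by
      intro a ha
      rw [dotProduct_smul, smul_eq_mul, dotProduct_comm]
      exact mul_nonneg (inv_nonneg.mpr hs0.le) (hw0 _ (Finset.mem_image_of_mem _ ha)))
    (by
      rw [dotProduct_smul, smul_eq_mul, dotProduct_comm]
      have : w0 ⬝ᵥ toR p = -s := by rw [hs]; ring
      rw [this, mul_neg, inv_mul_cancel₀ hs0.ne'])
  obtain ⟨z, hz, hzb⟩ := cramer_bound (Matrix.of V) r X hX
    (by
      intro i j
      change |V i j| ≤ X
      rcases hV i with h | h | ⟨j', h⟩
      · exact hA _ h j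
      · rw [h]; exact hpX j
      · rw [h]
        by_cases hj : j = j'
        · subst hj; simp only [Pi.single_eq_same, abs_one]; exact hX
        · rw [Pi.single_eq_of_ne hj, abs_zero]; omega) hr w hVr
  set D : ℤ := (Matrix.of V).det with hD
  have hD0 : D ≠ 0 := by
    have h1 : LinearIndependent ℝ (Matrix.row ((Matrix.of V).map (Int.cast : ℤ → ℝ))) := hli
    have h2 := Matrix.linearIndependent_rows_iff_isUnit.mp h1
    have h3 : ((Matrix.of V).map (Int.cast : ℤ → ℝ)).det = (D : ℝ) := by
      have := (RingHom.map_det (Int.castRingHom ℝ) (Matrix.of V))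
      simpa [RingHom.mapMatrix_apply] using this.symm
    have h4 := (Matrix.isUnit_iff_isUnit_det _).mp h2
    rw [h3] at h4
    exact_mod_cast h4.ne_zero
  have hdot : ∀ (x y : Fin n → ℤ), ((x ⬝ᵥ y : ℤ) : ℝ) = toR x ⬝ᵥ toR y := by
    intro x y; simp [dotProduct, toR]
  have hsgn : ∃ z' : Fin n → ℤ, toR z' = (|D| : ℤ) • w ∧ ∀ i, |z' i| = |z i| := by
    rcases le_or_gt 0 D with h | h
    · refine ⟨z, ?_, fun i => rfl⟩
      rw [hz, abs_of_nonneg h]
      exact (Int.cast_smul_eq_zsmul ℝ D w)
    · refine ⟨-z, ?_, fun i => by simp⟩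
      have : toR (-z) = - toR z := by ext i; simp [toR]
      rw [this, hz, abs_of_neg h, ← neg_smul, neg_smul, neg_smul, neg_inj]
      exact (Int.cast_smul_eq_zsmul ℝ D w)
  obtain ⟨z', hz', hzz⟩ := hsgn
  have hD1 : (1 : ℤ) ≤ |D| := Int.one_le_abs hD0
  have hD1R : (1 : ℝ) ≤ ((|D| : ℤ) : ℝ) := by exact_mod_cast hD1
  have hz'' : toR z' = ((|D| : ℤ) : ℝ) • w := by
    rw [hz']; exact (Int.cast_smul_eq_zsmul ℝ (|D| : ℤ) w).symm
  refine ⟨z', ?_, ?_, ?_⟩
  · intro a ha
    have h1 : (0 : ℝ) ≤ ((z' ⬝ᵥ a : ℤ) : ℝ) := by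
      rw [hdot, hz'', smul_dotProduct, dotProduct_comm, smul_eq_mul]
      exact mul_nonneg (by linarith) (hwA a ha)
    exact_mod_cast h1
  · have h1 : ((z' ⬝ᵥ p : ℤ) : ℝ) ≤ -1 := by
      rw [hdot, hz'', smul_dotProduct, dotProduct_comm, smul_eq_mul]
      nlinarith
    exact_mod_cast h1
  · intro i
    rw [hzz i]
    exact hzb i

end Pool.HMS
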