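import Pool.Agent.H91.HMS.Q12

set_option autoImplicit false

/-!
# HMS, section 5: bounded integral separators, bound independent of the point
-/

namespace Pool.HMS.LQ

open Finset

/-- Among the constraints `v k ⬝ w = r k` (`k` in a finite type), a feasible `w` with a maximal
number of tight constraints has spanning tight vectors, if the standard basis vectors with target
`0` occur. -/
theorem exists_tight' {n : ℕ} (A : Finset (Fin n → ℤ)) (p : Fin n → ℤ) (w0 : Fin n → ℚ)
    (hw0 : ∀ a ∈ A, 0 ≤ toQ a ⬝ᵥ w0) (hp0 : toQ p ⬝ᵥ w0 ≤ -1) :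
    ∃ (w : Fin n → ℚ) (V : Fin n → Fin n → ℤ) (r : Fin n → ℤ),
      (∀ a ∈ A, 0 ≤ toQ a ⬝ᵥ w) ∧ toQ p ⬝ᵥ w ≤ -1 ∧
      (∀ i, (r i = 0 ∧ (V i ∈ A ∨ ∃ j, V i = Pi.single j 1)) ∨ (r i = -1 ∧ V i = p)) ∧
      (∀ i, toQ (V i) ⬝ᵥ w = r i) ∧
      LinearIndependent ℚ (fun i => toQ (V i)) := by
  classical
  let K := (↥A ⊕ (Unit ⊕ Fin n))
  let vec : K → (Fin n → ℤ) := Sum.elim (fun a => (a : Fin n → ℤ))
    (Sum.elim (fun _ => p) (fun j => Pi.single j 1))
  let val : K → ℤ := Sum.elim (fun _ => 0) (Sum.elim (fun _ => -1) (fun _ => 0))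
  let Tight : (Fin n → ℚ) → Finset K := fun w =>
    Finset.univ.filter (fun k => toQ (vec k) ⬝ᵥ w = val k)
  let Feas : Set (Fin n → ℚ) := {w | (∀ a ∈ A, 0 ≤ toQ a ⬝ᵥ w) ∧ toQ p ⬝ᵥ w ≤ -1}
  have hfin : (Tight '' Feas).Finite := Set.toFinite _
  have hne : (Tight '' Feas).Nonempty := ⟨_, w0, ⟨hw0, hp0⟩, rfl⟩
  obtain ⟨T, ⟨w, ⟨hwA, hwp⟩, rfl⟩, hmax⟩ := Set.exists_max_image _ Finset.card hfin hne
  have hspan : ∀ d : Fin n → ℚ, (∀ k ∈ Tight w, toQ (vec k) ⬝ᵥ d = 0) → d = 0 := by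
    intro d hd
    by_contra hd0
    obtain ⟨i, hi⟩ : ∃ i, d i ≠ 0 := by
      by_contra h
      push Not at h
      exact hd0 (funext h)
    set I := Finset.univ.filter (fun k : K => k ∉ Tight w ∧ toQ (vec k) ⬝ᵥ d ≠ 0) with hI
    have hIi : (Sum.inr (Sum.inr i) : K) ∈ I := by
      have h1 : toQ (vec (Sum.inr (Sum.inr i))) ⬝ᵥ d = d i := by
        have : toQ (vec (Sum.inr (Sum.inr i))) = Pi.single i 1 := by
          ext j
          simp only [vec, Sum.elim_inr, toQ]
          by_cases h : j = i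
          · subst h; simp
          · simp [Pi.single_eq_of_ne h]
        rw [this, single_one_dotProduct]
      rw [hI, Finset.mem_filter]
      refine ⟨Finset.mem_univ _, fun h => ?_, by rw [h1]; exact hi⟩
      exact hi (h1.symm.trans (hd _ h))
    obtain ⟨k1, hk1, hmin⟩ := Finset.exists_min_image I
      (fun k => |((val k : ℚ) - toQ (vec k) ⬝ᵥ w) / (toQ (vec k) ⬝ᵥ d)|) ⟨_, hIi⟩
    set t : ℚ := ((val k1 : ℚ) - toQ (vec k1) ⬝ᵥ w) / (toQ (vec k1) ⬝ᵥ d) with ht
    have hk1' := (Finset.mem_filter.mp hk1).2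
    have hmove : ∀ k : K, toQ (vec k) ⬝ᵥ (w + t • d) =
        toQ (vec k) ⬝ᵥ w + t * (toQ (vec k) ⬝ᵥ d) := by
      intro k; rw [dotProduct_add, dotProduct_smul, smul_eq_mul]
    have hbd : ∀ k : K, |t * (toQ (vec k) ⬝ᵥ d)| ≤ |(val k : ℚ) - toQ (vec k) ⬝ᵥ w| := by
      intro k
      by_cases hkd : toQ (vec k) ⬝ᵥ d = 0
      · rw [hkd, mul_zero, abs_zero]; exact abs_nonneg _
      · have hkI : k ∈ I := by
          rw [hI, Finset.mem_filter]
          exact ⟨Finset.mem_univ _, fun h => hkd (hd k h), hkd⟩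
        have h1 := hmin k hkI
        rw [abs_div] at h1
        rw [abs_mul]
        calc |t| * |toQ (vec k) ⬝ᵥ d|
            ≤ (|(val k : ℚ) - toQ (vec k) ⬝ᵥ w| / |toQ (vec k) ⬝ᵥ d|) * |toQ (vec k) ⬝ᵥ d| := by
              refine mul_le_mul_of_nonneg_right ?_ (abs_nonneg _)
              rw [ht]
              rw [abs_div] at h1 ⊢
              simpa [abs_div] using h1
          _ = _ := div_mul_cancel₀ _ (abs_ne_zero.mpr hkd)
    have hfeas : w + t • d ∈ Feas := by
      refine ⟨fun a ha => ?_, ?_⟩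
      · have h1 := hmove (Sum.inl ⟨a, ha⟩)
        have h2 := hbd (Sum.inl ⟨a, ha⟩)
        simp only [vec, val, Sum.elim_inl, Int.cast_zero, zero_sub, abs_neg] at h1 h2
        rw [abs_of_nonneg (hwA a ha)] at h2
        rw [h1]
        linarith [(abs_le.mp h2).1]
      · have h1 := hmove (Sum.inr (Sum.inl ()))
        have h2 := hbd (Sum.inr (Sum.inl ()))
        simp only [vec, val, Sum.elim_inr, Sum.elim_inl, Int.cast_neg, Int.cast_one] at h1 h2
        rw [abs_of_nonneg (by linarith : (0 : ℚ) ≤ -1 - toQ p ⬝ᵥ w)] at h2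
        rw [h1]
        linarith [(abs_le.mp h2).2]
    have hsub : insert k1 (Tight w) ⊆ Tight (w + t • d) := by
      intro k hk
      rcases Finset.mem_insert.mp hk with rfl | hk
      · refine Finset.mem_filter.mpr ⟨Finset.mem_univ _, ?_⟩
        rw [hmove, ht, div_mul_cancel₀ _ hk1'.2]
        ring
      · refine Finset.mem_filter.mpr ⟨Finset.mem_univ _, ?_⟩
        rw [hmove, hd k hk, mul_zero, add_zero]
        exact (Finset.mem_filter.mp hk).2
    have h1 := Finset.card_le_card hsub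
    rw [Finset.card_insert_of_notMem hk1'.1] at h1
    have h2 := hmax _ ⟨w + t • d, hfeas, rfl⟩
    omega
  -- the tight vectors span
  have hsp : Submodule.span ℚ ((fun k => toQ (vec k)) '' (Tight w : Set K)) = ⊤ := by
    by_contra hne
    obtain ⟨f, hf, hker⟩ := Submodule.exists_le_ker_of_lt_top _ (lt_top_iff_ne_top.mpr hne)
    apply hf
    set d : Fin n → ℚ := fun i => f (Pi.single i 1) with hd
    have hfd : ∀ x, f x = x ⬝ᵥ d := by
      intro x
      conv_lhs => rw [← Finset.univ_sum_single x]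
      rw [map_sum]
      refine Finset.sum_congr rfl fun i _ => ?_
      have : (Pi.single i (x i) : Fin n → ℚ) = x i • Pi.single i 1 := by
        rw [← Pi.single_smul]; simp
      rw [this, map_smul, smul_eq_mul]
    have hd0 : d = 0 := by
      apply hspan
      intro k hk
      rw [← hfd]
      exact hker (Submodule.subset_span ⟨k, hk, rfl⟩)
    ext i
    have : f (Pi.single i 1) = d i := rfl
    simp [this, hd0]
  obtain ⟨b, hbt, hbspan, hbli⟩ := exists_linearIndependent ℚ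
    ((fun k => toQ (vec k)) '' (Tight w : Set K))
  have hb : ⊤ ≤ Submodule.span ℚ (Set.range ((↑) : b → (Fin n → ℚ))) := by
    rw [Subtype.range_coe, hbspan, hsp]
  let B := Module.Basis.mk hbli hb
  have hbfin : b.Finite := (Set.toFinite _).subset hbt
  let _ : Fintype b := hbfin.fintype
  have hcard : Fintype.card b = n := by
    have h1 := Module.finrank_eq_card_basis B
    rw [Module.finrank_fin_fun] at h1
    exact h1.symm
  let eb : Fin n ≃ b := (Fintype.equivFinOfCardEq hcard).symm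
  have hex : ∀ i : Fin n, ∃ k ∈ Tight w, toQ (vec k) = (eb i : Fin n → ℚ) := by
    intro i
    obtain ⟨k, hk, hk2⟩ := hbt (eb i).2
    exact ⟨k, hk, hk2⟩
  choose k hk hke using hex
  refine ⟨w, fun i => vec (k i), fun i => val (k i), hwA, hwp, ?_, ?_, ?_⟩
  · have : ∀ q : K, (val q = 0 ∧ (vec q ∈ A ∨ ∃ j, vec q = Pi.single j 1)) ∨
        (val q = -1 ∧ vec q = p) := by
      intro q
      rcases q with a | a | a
      · exact Or.inl ⟨rfl, Or.inl a.2⟩
      · exact Or.inr ⟨rfl, rfl⟩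
      · exact Or.inl ⟨rfl, Or.inr ⟨a, rfl⟩⟩
    exact fun i => this (k i)
  · intro i
    exact (Finset.mem_filter.mp (hk i)).2
  · have h1 : (fun i => toQ (vec (k i))) = fun i => ((eb i : b) : Fin n → ℚ) := funext hke
    rw [h1]
    exact hbli.comp eb eb.injective

/-- **Bounded separators**, with a bound that does not depend on `p`. -/
theorem bounded_separator' {n : ℕ} (A : Finset (Fin n → ℤ)) (p : Fin n → ℤ) (X : ℤ) (hX : 1 ≤ X)
    (hA : ∀ a ∈ A, ∀ i, |a i| ≤ X)
    (hp : ¬ ∃ c : (Fin n → ℤ) → ℚ, (∀ a ∈ A, 0 ≤ c a) ∧ toQ p = ∑ a ∈ A, c a • toQ a) :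
    ∃ w : Fin n → ℤ, (∀ a ∈ A, 0 ≤ w ⬝ᵥ a) ∧ w ⬝ᵥ p ≤ -1 ∧
      ∀ i, |w i| ≤ n.factorial * X ^ n := by
  classical
  have htoQinj : Function.Injective (toQ : (Fin n → ℤ) → (Fin n → ℚ)) := by
    intro x y hxy
    ext i
    have := congrFun hxy i
    simpa [toQ] using this
  obtain ⟨w0, hw0, hw0p⟩ := farkas (A.image toQ) (toQ p) (by
    rintro ⟨c, hc, hcp⟩
    apply hp
    refine ⟨fun a => c (toQ a), fun a ha => hc _ (Finset.mem_image_of_mem _ ha), ?_⟩
    rw [hcp, Finset.sum_image (fun x _ y _ h => htoQinj h)])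
  set s : ℚ := -(w0 ⬝ᵥ toQ p) with hs
  have hs0 : 0 < s := by rw [hs]; linarith
  obtain ⟨w, V, r, hwA, hwp, hV, hVr, hli⟩ := exists_tight' A p (s⁻¹ • w0)
    (by
      intro a ha
      rw [dotProduct_smul, smul_eq_mul, dotProduct_comm]
      exact mul_nonneg (inv_nonneg.mpr hs0.le) (hw0 _ (Finset.mem_image_of_mem _ ha)))
    (by
      rw [dotProduct_smul, smul_eq_mul, dotProduct_comm]
      have : w0 ⬝ᵥ toQ p = -s := by rw [hs]; ring
      rw [this, mul_neg, inv_mul_cancel₀ hs0.ne'])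
  -- the integral solution
  have hz : toQ ((Matrix.of V).adjugate.mulVec r) = ((Matrix.of V).det : ℚ) • w := by
    have h1 : ((Matrix.of V).map (Int.cast : ℤ → ℚ)).mulVec w = toQ r := by
      ext i
      have := hVr i
      simp only [Matrix.mulVec, dotProduct, Matrix.map_apply, toQ, Matrix.of_apply] at this ⊢
      exact this
    have h2 : toQ ((Matrix.of V).adjugate.mulVec r) =
        ((Matrix.of V).adjugate.map (Int.cast : ℤ → ℚ)).mulVec (toQ r) := by
      ext i
      simp [Matrix.mulVec, dotProduct, toQ]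
    have h3 : (Matrix.of V).adjugate.map (Int.cast : ℤ → ℚ) =
        ((Matrix.of V).map (Int.cast : ℤ → ℚ)).adjugate := by
      have := (RingHom.map_adjugate (Int.castRingHom ℚ) (Matrix.of V))
      simpa [RingHom.mapMatrix_apply] using this
    have h4 : ((Matrix.of V).map (Int.cast : ℤ → ℚ)).det = ((Matrix.of V).det : ℚ) := by
      have := (RingHom.map_det (Int.castRingHom ℚ) (Matrix.of V))
      simpa [RingHom.mapMatrix_apply] using this.symm
    rw [h2, ← h1, Matrix.mulVec_mulVec, h3, Matrix.adjugate_mul, h4, Matrix.smul_mulVec,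
      Matrix.one_mulVec]
  set z : Fin n → ℤ := (Matrix.of V).adjugate.mulVec r with hzdef
  set D : ℤ := (Matrix.of V).det with hD
  have hD0 : D ≠ 0 := by
    have h1 : LinearIndependent ℚ (Matrix.row ((Matrix.of V).map (Int.cast : ℤ → ℚ))) := hli
    have h2 := Matrix.linearIndependent_rows_iff_isUnit.mp h1
    have h3 : ((Matrix.of V).map (Int.cast : ℤ → ℚ)).det = (D : ℚ) := by
      have := (RingHom.map_det (Int.castRingHom ℚ) (Matrix.of V))
      simpa [RingHom.mapMatrix_apply] using this.symm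
    have h4 := (Matrix.isUnit_iff_isUnit_det _).mp h2
    rw [h3] at h4
    exact_mod_cast h4.ne_zero
  -- the row of `p`
  obtain ⟨i0, hi0⟩ : ∃ i0, r i0 = -1 ∧ V i0 = p := by
    by_contra hcon
    push Not at hcon
    have hr0 : r = 0 := by
      ext i
      rcases hV i with h | h
      · exact h.1
      · exact absurd h.2 (hcon i h.1)
    have h1 : toQ z = 0 := by
      rw [hzdef, hr0, Matrix.mulVec_zero]
      ext i; simp [toQ]
    rw [hz] at h1
    rcases smul_eq_zero.mp h1 with h | h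
    · exact hD0 (by exact_mod_cast h)
    · rw [h, dotProduct_zero] at hwp
      linarith
  have hVother : ∀ i, i ≠ i0 → r i = 0 ∧ (V i ∈ A ∨ ∃ j, V i = Pi.single j 1) := by
    intro i hi
    rcases hV i with h | h
    · exact h
    · exfalso
      apply hi
      apply hli.injective
      simp only
      rw [h.2, hi0.2]
  have hzb : ∀ i, |z i| ≤ n.factorial * X ^ n := by
    intro i
    have h1 : z i = -(Matrix.of V).adjugate i i0 := by
      change ∑ j, (Matrix.of V).adjugate i j * r j = _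
      rw [Finset.sum_eq_single i0]
      · rw [hi0.1]; ring
      · intro j _ hj
        rw [(hVother j hj).1, mul_zero]
      · intro h; exact absurd (Finset.mem_univ _) h
    rw [h1, abs_neg, Matrix.adjugate_apply]
    have := Matrix.det_le (A := (Matrix.of V).updateRow i0 (Pi.single i 1))
      (abv := AbsoluteValue.abs) (x := X)
      (by
        intro a b
        change |(Matrix.of V).updateRow i0 (Pi.single i 1) a b| ≤ X
        rw [Matrix.updateRow_apply]
        split_ifs with h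
        · by_cases hb : b = i
          · subst hb; simp only [Pi.single_eq_same, abs_one]; exact hX
          · rw [Pi.single_eq_of_ne hb, abs_zero]; omega
        · rw [Matrix.of_apply]
          rcases (hVother a h).2 with h2 | ⟨j', h2⟩
          · exact hA _ h2 b
          · rw [h2]
            by_cases hj : b = j'
            · subst hj; simp only [Pi.single_eq_same, abs_one]; exact hX
            · rw [Pi.single_eq_of_ne hj, abs_zero]; omega)
    simpa [nsmul_eq_mul] using this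
  have hdot : ∀ (x y : Fin n → ℤ), ((x ⬝ᵥ y : ℤ) : ℚ) = toQ x ⬝ᵥ toQ y := by
    intro x y; simp [dotProduct, toQ]
  have hsgn : ∃ z' : Fin n → ℤ, toQ z' = ((|D| : ℤ) : ℚ) • w ∧ ∀ i, |z' i| = |z i| := by
    rcases le_or_gt 0 D with h | h
    · exact ⟨z, by rw [hz, abs_of_nonneg h], fun i => rfl⟩
    · refine ⟨-z, ?_, fun i => by simp⟩
      have : toQ (-z) = - toQ z := by ext i; simp [toQ]
      rw [this, hz, abs_of_neg h, ← neg_smul]
      push_cast
      rfl
  obtain ⟨z', hz', hzz⟩ := hsgn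
  have hD1 : (1 : ℤ) ≤ |D| := Int.one_le_abs hD0
  have hD1R : (1 : ℚ) ≤ ((|D| : ℤ) : ℚ) := by exact_mod_cast hD1
  refine ⟨z', ?_, ?_, ?_⟩
  · intro a ha
    have h1 : (0 : ℚ) ≤ ((z' ⬝ᵥ a : ℤ) : ℚ) := by
      rw [hdot, hz', smul_dotProduct, dotProduct_comm, smul_eq_mul]
      exact mul_nonneg (by linarith) (hwA a ha)
    exact_mod_cast h1
  · have h1 : ((z' ⬝ᵥ p : ℤ) : ℚ) ≤ -1 := by
      rw [hdot, hz', smul_dotProduct, dotProduct_comm, smul_eq_mul]
      nlinarith
    exact_mod_cast h1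
  · intro i
    rw [hzz i]
    exact hzb i

end Pool.HMS.LQ

namespace Pool.HMS

open Finset

/-- Bounded integral separators; the bound does not depend on `p`. -/
theorem cone_bounded_sep' {n : ℕ} {A : Set (ℕ → ℚ)} (hfin : A.Finite) (hA : ∀ a ∈ A, Lat n a)
    {p : ℕ → ℚ} (hp : Lat n p) {X : ℕ} (hX : 1 ≤ X) (hAX : ∀ a ∈ A, ∀ i, |a i| ≤ X)
    (hpA : p ∉ Cone A) :
    ∃ w, Lat n w ∧ (∀ i, |w i| ≤ (n.factorial * (X : ℚ) ^ n)) ∧
      (∀ u ∈ Cone A, 0 ≤ lin n w u) ∧ lin n w p ≤ -1 := by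
  classical
  obtain ⟨pz, hpz⟩ := hp.exists_int
  let As : Finset (Fin n → ℤ) := hfin.toFinset.attach.image
    fun a => (hA a.1 (hfin.mem_toFinset.1 a.2)).exists_int.choose
  have hAs : ∀ z ∈ As, ∃ a ∈ A, LQ.toQ z = toF n a := by
    intro z hz
    obtain ⟨a, -, rfl⟩ := Finset.mem_image.1 hz
    exact ⟨a.1, hfin.mem_toFinset.1 a.2, (hA a.1 (hfin.mem_toFinset.1 a.2)).exists_int.choose_spec⟩
  have hAs' : ∀ a ∈ A, ∃ z ∈ As, LQ.toQ z = toF n a := by
    intro a ha
    exact ⟨_, Finset.mem_image_of_mem _ (Finset.mem_attach _ ⟨a, hfin.mem_toFinset.2 ha⟩),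
      (hA a ha).exists_int.choose_spec⟩
  have hbd : ∀ (z : Fin n → ℤ) (a : ℕ → ℚ), LQ.toQ z = toF n a → (∀ i, |a i| ≤ X) →
      ∀ i, |z i| ≤ (X : ℤ) := by
    intro z a hza ha i
    have h1 : (z i : ℚ) = a i := congrFun hza i
    have h2 := ha i
    rw [← h1] at h2
    have h3 : ((|z i| : ℤ) : ℚ) ≤ ((X : ℤ) : ℚ) := by
      rw [Int.cast_abs]; exact_mod_cast h2
    exact_mod_cast h3
  obtain ⟨w, hw, hwp, hwb⟩ := LQ.bounded_separator' As pz (X : ℤ) (by exact_mod_cast hX)
    (by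
      intro z hz
      obtain ⟨a, ha, hza⟩ := hAs z hz
      exact hbd z a hza (hAX a ha))
    (by
      rintro ⟨c, hc, hcp⟩
      apply hpA
      have h1 : p = ∑ z ∈ As, c z • ofF (LQ.toQ z) := by
        refine toF_inj hp.1 ?_ ?_
        · intro i hi
          rw [Finset.sum_apply]
          refine Finset.sum_eq_zero fun z _ => ?_
          have := supp_ofF (LQ.toQ z) i hi
          simp [this]
        · rw [← hpz, hcp, toF_sum]
          refine Finset.sum_congr rfl fun z _ => ?_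
          rw [toF_smul, toF_ofF]
      rw [h1]
      refine Cone.sum_mem _ _ _ fun z hz => ⟨hc z hz, ?_⟩
      obtain ⟨a, ha, hza⟩ := hAs z hz
      rw [hza, ofF_toF (hA a ha).1]
      exact ha)
  have hdot : ∀ (x y : Fin n → ℤ), ((x ⬝ᵥ y : ℤ) : ℚ) = LQ.toQ x ⬝ᵥ LQ.toQ y := by
    intro x y; simp [dotProduct, LQ.toQ]
  refine ⟨ofF (LQ.toQ w), lat_ofF w, ?_, Cone.nonneg fun a ha => ?_, ?_⟩
  · intro i
    by_cases h : i < n
    · have h1 := hwb ⟨i, h⟩
      have h2 : ((|w ⟨i, h⟩| : ℤ) : ℚ) ≤ ((n.factorial * (X : ℤ) ^ n : ℤ) : ℚ) := by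
        exact_mod_cast h1
      simp only [ofF, h, dite_true, LQ.toQ]
      rw [Int.cast_abs] at h2
      push_cast at h2
      exact h2
    · simp only [ofF, h, dite_false, abs_zero]
      positivity
  · obtain ⟨z, hz, hza⟩ := hAs' a ha
    rw [lin_eq_dot, toF_ofF, ← hza, ← hdot]
    exact_mod_cast hw z hz
  · rw [lin_eq_dot, toF_ofF, ← hpz, ← hdot]
    exact_mod_cast hwp

end Pool.HMS
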